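import Mathlib

/-!
Progression-free sets and colourings without monochromatic progressions in subsets of `F_p^n`;
covering a finite group by translates of a set.
-/

set_option autoImplicit false
set_option linter.unusedSectionVars false

namespace Pool.Agent.KS6_70.RC

open Finset

section cover

variable {G : Type*} [AddCommGroup G] [Fintype G] [DecidableEq G]

lemma sum_translates (A U : Finset G) :
    ∑ g : G, (U.filter fun x => x - g ∈ A).card = U.card * A.card := by
  classical
  have h1 : ∀ g : G, (U.filter fun x => x - g ∈ A).card = ∑ x ∈ U, if x - g ∈ A then 1 else 0 := by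
    intro g
    rw [Finset.card_filter]
  rw [Finset.sum_congr rfl fun g _ => h1 g, Finset.sum_comm]
  have h2 : ∀ x : G, (∑ g : G, if x - g ∈ A then 1 else 0) = A.card := by
    intro x
    rw [← Finset.card_filter]
    refine Finset.card_bij (fun g _ => x - g) ?_ ?_ ?_
    · intro g hg
      exact (Finset.mem_filter.1 hg).2
    · intro g _ g' _ h
      exact sub_right_injective h
    · intro a ha
      exact ⟨x - a, by simp [ha], by simp⟩
  rw [Finset.sum_congr rfl fun x _ => h2 x, Finset.sum_const, smul_eq_mul]

/-- some translate of `A` contains at least the average part of `U` -/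
lemma exists_translate (A U : Finset G) :
    ∃ g : G, U.card * A.card ≤ Fintype.card G * (U.filter fun x => x - g ∈ A).card := by
  by_contra h
  push Not at h
  have h1 : ∑ g : G, Fintype.card G * (U.filter fun x => x - g ∈ A).card <
      ∑ _g : G, U.card * A.card := Finset.sum_lt_sum_of_nonempty ⟨0, mem_univ _⟩ fun g _ => h g
  rw [← Finset.mul_sum, sum_translates, Finset.sum_const, Finset.card_univ, smul_eq_mul] at h1
  exact lt_irrefl _ h1

/-- greedy covering by translates -/
lemma greedy (A : Finset G) (t : ℕ) : ∃ g : ℕ → G,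
    ((univ : Finset G).filter fun x => ∀ i < t, x - g i ∉ A).card * Fintype.card G ^ t ≤
      Fintype.card G * (Fintype.card G - A.card) ^ t := by
  classical
  induction t with
  | zero => exact ⟨fun _ => 0, by simp⟩
  | succ t ih =>
    obtain ⟨g, hg⟩ := ih
    set U := (univ : Finset G).filter fun x => ∀ i < t, x - g i ∉ A with hU
    obtain ⟨b, hb⟩ := exists_translate A U
    refine ⟨fun i => if i = t then b else g i, ?_⟩
    have e1 : ((univ : Finset G).filter fun x =>
        ∀ i < t + 1, x - (if i = t then b else g i) ∉ A) = U.filter fun x => x - b ∉ A := by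
      ext x
      simp only [hU, mem_filter, mem_univ, true_and]
      constructor
      · intro h
        refine ⟨fun i hi => ?_, ?_⟩
        · have := h i (by omega)
          rwa [if_neg (by omega)] at this
        · have := h t (by omega)
          rwa [if_pos rfl] at this
      · rintro ⟨h1, h2⟩ i hi
        by_cases hit : i = t
        · rw [if_pos hit]; exact h2
        · rw [if_neg hit]; exact h1 i (by omega)
    rw [e1]
    have h2 : (U.filter fun x => x - b ∈ A).card + (U.filter fun x => x - b ∉ A).card = U.card :=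
      Finset.card_filter_add_card_filter_not _
    have hA : A.card ≤ Fintype.card G := Finset.card_le_univ A
    have h3 : (U.filter fun x => x - b ∉ A).card * Fintype.card G ≤
        U.card * (Fintype.card G - A.card) := by
      rw [Nat.mul_sub]
      have h4 : (U.filter fun x => x - b ∉ A).card * Fintype.card G +
          Fintype.card G * (U.filter fun x => x - b ∈ A).card = U.card * Fintype.card G := by
        rw [← h2]; ring
      omega
    calc (U.filter fun x => x - b ∉ A).card * Fintype.card G ^ (t + 1)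
        = ((U.filter fun x => x - b ∉ A).card * Fintype.card G) * Fintype.card G ^ t := by ring
      _ ≤ (U.card * (Fintype.card G - A.card)) * Fintype.card G ^ t :=
          Nat.mul_le_mul_right _ h3
      _ = (U.card * Fintype.card G ^ t) * (Fintype.card G - A.card) := by ring
      _ ≤ (Fintype.card G * (Fintype.card G - A.card) ^ t) * (Fintype.card G - A.card) :=
          Nat.mul_le_mul_right _ hg
      _ = Fintype.card G * (Fintype.card G - A.card) ^ (t + 1) := by ring

/-- covering by `⌊(|G| / |A|) log |G|⌋ + 1` translates -/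
lemma exists_cover (A : Finset G) (hA : A.Nonempty) : ∃ g : ℕ → G, ∀ x : G,
    ∃ i < ⌊(Fintype.card G : ℝ) / A.card * Real.log (Fintype.card G)⌋₊ + 1, x - g i ∈ A := by
  classical
  set t := ⌊(Fintype.card G : ℝ) / A.card * Real.log (Fintype.card G)⌋₊ + 1 with ht
  obtain ⟨g, hg⟩ := greedy A t
  refine ⟨g, fun x => ?_⟩
  by_contra hx
  push Not at hx
  have hmem : x ∈ (univ : Finset G).filter fun x => ∀ i < t, x - g i ∉ A := by
    simp only [mem_filter, mem_univ, true_and]
    exact hx
  have h1 : 1 ≤ ((univ : Finset G).filter fun x => ∀ i < t, x - g i ∉ A).card :=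
    Finset.card_pos.2 ⟨x, hmem⟩
  have hN : (0 : ℝ) < Fintype.card G := by
    have : 0 < Fintype.card G := Fintype.card_pos_iff.2 ⟨x⟩
    exact_mod_cast this
  have ha : (0 : ℝ) < A.card := by exact_mod_cast hA.card_pos
  have hAle : A.card ≤ Fintype.card G := Finset.card_le_univ A
  have h2 : (Fintype.card G : ℝ) ^ t ≤ Fintype.card G * ((Fintype.card G : ℝ) - A.card) ^ t := by
    have h3 : Fintype.card G ^ t ≤ Fintype.card G * (Fintype.card G - A.card) ^ t :=
      le_trans (Nat.le_mul_of_pos_left _ h1) hg
    have h4 : ((Fintype.card G ^ t : ℕ) : ℝ) ≤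
        ((Fintype.card G * (Fintype.card G - A.card) ^ t : ℕ) : ℝ) := by exact_mod_cast h3
    push_cast [Nat.cast_sub hAle] at h4
    exact h4
  have h5 : (1 : ℝ) ≤ Fintype.card G * (1 - A.card / Fintype.card G) ^ t := by
    have e : (1 : ℝ) - A.card / Fintype.card G = (Fintype.card G - A.card) / Fintype.card G := by
      field_simp
    rw [e, div_pow, ← mul_div_assoc, le_div_iff₀ (by positivity), one_mul]
    exact h2
  have h6 : (1 - (A.card : ℝ) / Fintype.card G) ^ t ≤ Real.exp (-(A.card / Fintype.card G)) ^ t := by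
    refine pow_le_pow_left₀ ?_ ?_ t
    · rw [sub_nonneg, div_le_one hN]
      exact_mod_cast hAle
    · have := Real.add_one_le_exp (-((A.card : ℝ) / Fintype.card G))
      linarith
  rw [← Real.exp_nat_mul] at h6
  have h7 : Real.log (Fintype.card G) < t * ((A.card : ℝ) / Fintype.card G) := by
    have h8 : (Fintype.card G : ℝ) / A.card * Real.log (Fintype.card G) < t := by
      rw [ht]
      push_cast
      exact Nat.lt_floor_add_one _
    have h9 := mul_lt_mul_of_pos_right h8 (show (0 : ℝ) < A.card / Fintype.card G by positivity)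
    calc Real.log (Fintype.card G) = (Fintype.card G : ℝ) / A.card *
          Real.log (Fintype.card G) * (A.card / Fintype.card G) := by
            field_simp
      _ < _ := h9
  have h10 : Real.exp (t * -((A.card : ℝ) / Fintype.card G)) < (Fintype.card G : ℝ)⁻¹ := by
    have e : Real.exp (-Real.log (Fintype.card G)) = (Fintype.card G : ℝ)⁻¹ := by
      rw [Real.exp_neg, Real.exp_log hN]
    rw [← e, Real.exp_lt_exp]
    linarith
  have h11 : (Fintype.card G : ℝ) * (1 - A.card / Fintype.card G) ^ t < 1 := by
    calc (Fintype.card G : ℝ) * (1 - A.card / Fintype.card G) ^ t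
        ≤ Fintype.card G * Real.exp (t * -((A.card : ℝ) / Fintype.card G)) :=
          mul_le_mul_of_nonneg_left h6 hN.le
      _ < Fintype.card G * (Fintype.card G : ℝ)⁻¹ := mul_lt_mul_of_pos_left h10 hN
      _ = 1 := mul_inv_cancel₀ hN.ne'
  linarith

end cover

section defs

/-- `A ⊆ F_p^n` contains no nontrivial `k`-term progression `x, x+y, …, x+(k-1)y` with `y ≠ 0`. -/
def APFree (k : ℕ) {p n : ℕ} (A : Finset (Fin n → ZMod p)) : Prop :=
  ∀ x y : Fin n → ZMod p, (∀ i : ℕ, i < k → x + i • y ∈ A) → y = 0

/-- the largest size of a subset of `F` without nontrivial `k`-term progressions; for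
`F = F_p^n` this is `r_k(F_p^n)` -/
noncomputable def r (k : ℕ) {p n : ℕ} (F : Finset (Fin n → ZMod p)) : ℕ :=
  sSup {m : ℕ | ∃ A ⊆ F, APFree k A ∧ A.card = m}

/-- The points of `F` can be coloured with `c` colours such that no nontrivial `k`-term
progression contained in `F` is monochromatic. -/
def Colourable (k : ℕ) {p n : ℕ} (F : Finset (Fin n → ZMod p)) (c : ℕ) : Prop :=
  ∃ f : (Fin n → ZMod p) → Fin c, ∀ x y : Fin n → ZMod p, y ≠ 0 →
    (∀ i : ℕ, i < k → x + i • y ∈ F) → ∃ i j : ℕ, i < k ∧ j < k ∧ f (x + i • y) ≠ f (x + j • y)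

/-- the least number of colours of such a colouring -/
noncomputable def chi (k : ℕ) {p n : ℕ} (F : Finset (Fin n → ZMod p)) : ℕ :=
  sInf {c : ℕ | Colourable k F c}

/-- The Ramsey number: the least `n` such that every colouring of `F_p^n` with `c` colours has a
monochromatic nontrivial `k`-term progression. -/
noncomputable def ram (k p : ℕ) [NeZero p] (c : ℕ) : ℕ :=
  sInf {n : ℕ | ¬ Colourable k (univ : Finset (Fin n → ZMod p)) c}

variable {k p n : ℕ} [hp : Fact p.Prime]

lemma r_bdd (F : Finset (Fin n → ZMod p)) :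
    BddAbove {m : ℕ | ∃ A ⊆ F, APFree k A ∧ A.card = m} := by
  refine ⟨F.card, ?_⟩
  rintro m ⟨A, hA, _, rfl⟩
  exact Finset.card_le_card hA

lemma le_r {F A : Finset (Fin n → ZMod p)} (hA : A ⊆ F) (h : APFree k A) : A.card ≤ r k F :=
  le_csSup (r_bdd F) ⟨A, hA, h, rfl⟩

lemma r_le_card (F : Finset (Fin n → ZMod p)) : r k F ≤ F.card := by
  apply csSup_le'
  rintro m ⟨A, hA, _, rfl⟩
  exact Finset.card_le_card hA

lemma apfree_empty (hk : 1 ≤ k) : APFree k (∅ : Finset (Fin n → ZMod p)) := by
  intro x y h
  have := h 0 (by omega)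
  simp at this

lemma exists_r (F : Finset (Fin n → ZMod p)) (hk : 1 ≤ k) :
    ∃ A ⊆ F, APFree k A ∧ A.card = r k F :=
  Nat.sSup_mem (s := {m : ℕ | ∃ A ⊆ F, APFree k A ∧ A.card = m})
    ⟨0, ∅, Finset.empty_subset _, apfree_empty hk, rfl⟩ (r_bdd F)

lemma apfree_mono {A B : Finset (Fin n → ZMod p)} (h : A ⊆ B) (hB : APFree k B) : APFree k A :=
  fun x y hxy => hB x y fun i hi => h (hxy i hi)

lemma r_mono {F F' : Finset (Fin n → ZMod p)} (h : F ⊆ F') (hk : 1 ≤ k) : r k F ≤ r k F' := by
  obtain ⟨A, hA, hA', hc⟩ := exists_r (k := k) F hk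
  rw [← hc]
  exact le_r (hA.trans h) hA'

lemma one_le_r {F : Finset (Fin n → ZMod p)} (hF : F.Nonempty) (hk : 2 ≤ k) : 1 ≤ r k F := by
  obtain ⟨v, hv⟩ := hF
  have h : APFree k ({v} : Finset (Fin n → ZMod p)) := by
    intro x y h
    have h0 := h 0 (by omega)
    have h1 := h 1 (by omega)
    simp only [mem_singleton, zero_smul, add_zero, one_smul] at h0 h1
    rw [h0] at h1
    simpa using h1
  have := le_r (F := F) (by simpa using hv) h
  simpa using this

/-- a translate of a progression-free set -/
lemma apfree_translate {A : Finset (Fin n → ZMod p)} (hA : APFree k A) (g : Fin n → ZMod p)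
    (U : Finset (Fin n → ZMod p)) : APFree k (U.filter fun x => x - g ∈ A) := by
  intro x y h
  refine hA (x - g) y fun i hi => ?_
  have := (Finset.mem_filter.1 (h i hi)).2
  rwa [add_sub_right_comm] at this

lemma card_space : Fintype.card (Fin n → ZMod p) = p ^ n := by
  rw [Fintype.card_fun, ZMod.card, Fintype.card_fin]

/-- sets of density `δ` contain progression-free sets of size `δ r_k(F_p^n)` -/
lemma dense (F : Finset (Fin n → ZMod p)) (hk : 1 ≤ k) :
    F.card * r k (univ : Finset (Fin n → ZMod p)) ≤ p ^ n * r k F := by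
  obtain ⟨A, _, hA, hc⟩ := exists_r (k := k) (univ : Finset (Fin n → ZMod p)) hk
  obtain ⟨g, hg⟩ := exists_translate A F
  rw [← hc]
  refine hg.trans ?_
  rw [card_space]
  exact Nat.mul_le_mul_left _ (le_r (Finset.filter_subset _ _) (apfree_translate hA g F))

lemma colourable_mono {F : Finset (Fin n → ZMod p)} {c c' : ℕ} (h : c ≤ c')
    (hc : Colourable k F c) : Colourable k F c' := by
  obtain ⟨f, hf⟩ := hc
  refine ⟨fun x => Fin.castLE h (f x), fun x y hy hF => ?_⟩
  obtain ⟨i, j, hi, hj, hij⟩ := hf x y hy hF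
  exact ⟨i, j, hi, hj, fun h' => hij (Fin.castLE_injective h h')⟩

lemma colourable_subset {F F' : Finset (Fin n → ZMod p)} {c : ℕ} (h : F ⊆ F')
    (hc : Colourable k F' c) : Colourable k F c := by
  obtain ⟨f, hf⟩ := hc
  exact ⟨f, fun x y hy hF => hf x y hy fun i hi => h (hF i hi)⟩

/-- one colour for each point -/
lemma colourable_card (hk : 2 ≤ k) (F : Finset (Fin n → ZMod p)) : Colourable k F (p ^ n) := by
  have e : (Fin n → ZMod p) ≃ Fin (p ^ n) := Fintype.equivFinOfCardEq card_space
  refine ⟨e, fun x y hy _ => ⟨0, 1, by omega, by omega, fun h => hy ?_⟩⟩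
  have := e.injective h
  simpa using this.symm

lemma chi_spec (hk : 2 ≤ k) (F : Finset (Fin n → ZMod p)) : Colourable k F (chi k F) :=
  Nat.sInf_mem (s := {c : ℕ | Colourable k F c}) ⟨_, colourable_card hk F⟩

lemma chi_le {F : Finset (Fin n → ZMod p)} {c : ℕ} (h : Colourable k F c) : chi k F ≤ c :=
  Nat.sInf_le h

lemma lt_chi (hk : 2 ≤ k) {F : Finset (Fin n → ZMod p)} {c : ℕ} (h : ¬ Colourable k F c) :
    c < chi k F := by
  by_contra h'
  exact h (colourable_mono (not_lt.1 h') (chi_spec hk F))

lemma chi_subset (hk : 2 ≤ k) {F F' : Finset (Fin n → ZMod p)} (h : F ⊆ F') :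
    chi k F ≤ chi k F' := chi_le (colourable_subset h (chi_spec hk F'))

/-- the colour classes are progression-free -/
lemma card_le_of_colourable {F : Finset (Fin n → ZMod p)} {c : ℕ} (h : Colourable k F c) :
    F.card ≤ c * r k F := by
  classical
  obtain ⟨f, hf⟩ := h
  have h1 : F.card = ∑ a : Fin c, (F.filter fun x => f x = a).card :=
    Finset.card_eq_sum_card_fiberwise fun _ _ => mem_univ _
  rw [h1]
  calc ∑ a : Fin c, (F.filter fun x => f x = a).card ≤ ∑ _a : Fin c, r k F := by
        refine Finset.sum_le_sum fun a _ => le_r (Finset.filter_subset _ _) ?_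
        intro x y hxy
        by_contra hy
        obtain ⟨i, j, hi, hj, hij⟩ := hf x y hy fun i hi => (Finset.mem_filter.1 (hxy i hi)).1
        exact hij (((Finset.mem_filter.1 (hxy i hi)).2).trans ((Finset.mem_filter.1 (hxy j hj)).2).symm)
    _ = c * r k F := by rw [Finset.sum_const, Finset.card_univ, Fintype.card_fin, smul_eq_mul]

lemma le_chi_mul (hk : 2 ≤ k) (F : Finset (Fin n → ZMod p)) : F.card ≤ chi k F * r k F :=
  card_le_of_colourable (chi_spec hk F)

/-- the upper bound for the number of colours -/
lemma chi_upper (hk : 2 ≤ k) :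
    (chi k (univ : Finset (Fin n → ZMod p)) : ℝ) ≤
      (p : ℝ) ^ n / r k (univ : Finset (Fin n → ZMod p)) * (n * Real.log p) + 1 := by
  classical
  obtain ⟨A, _, hA, hc⟩ := exists_r (k := k) (univ : Finset (Fin n → ZMod p)) (by omega)
  have hr : 1 ≤ r k (univ : Finset (Fin n → ZMod p)) :=
    one_le_r (univ_nonempty : (univ : Finset (Fin n → ZMod p)).Nonempty) hk
  have hne : A.Nonempty := by
    rw [← Finset.card_pos, hc]; omega
  obtain ⟨g, hg⟩ := exists_cover A hne
  set t := ⌊(Fintype.card (Fin n → ZMod p) : ℝ) / A.card *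
    Real.log (Fintype.card (Fin n → ZMod p))⌋₊ + 1 with ht
  choose col hcol1 hcol2 using hg
  have hcolb : Colourable k (univ : Finset (Fin n → ZMod p)) t := by
    refine ⟨fun x => ⟨col x, hcol1 x⟩, fun x y hy _ => ?_⟩
    by_contra h
    push Not at h
    apply hy
    refine hA (x - g (col x)) y fun i hi => ?_
    have h1 := h i 0 hi (by omega)
    simp only [zero_smul, add_zero, Fin.mk.injEq] at h1
    have h2 := hcol2 (x + i • y)
    rw [h1] at h2
    rwa [add_sub_right_comm] at h2
  have h3 : (chi k (univ : Finset (Fin n → ZMod p)) : ℝ) ≤ t := by exact_mod_cast chi_le hcolb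
  refine h3.trans ?_
  rw [ht, hc, card_space]
  push_cast
  rw [Real.log_pow]
  have h4 : (0 : ℝ) ≤ (p : ℝ) ^ n / r k (univ : Finset (Fin n → ZMod p)) * (n * Real.log p) := by
    have : 0 ≤ Real.log p := Real.log_nonneg (by exact_mod_cast hp.out.one_le)
    positivity
  have := Nat.floor_le h4
  linarith

end defs

end Pool.Agent.KS6_70.RC
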