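import Pool.Agent.KS6_70.RC.Univ

/-!
Sets in which all progressions have their difference in an exceptional set.
-/

set_option autoImplicit false
set_option linter.unusedSectionVars false

namespace Pool.Agent.KS6_70.RC

open Finset Filter Topology

/-- all nontrivial `k`-term progressions `x, x + y, …, x + (k-1) y` in `A` have `y ∈ E` -/
def APOnly (k : ℕ) {p n : ℕ} (E A : Finset (Fin n → ZMod p)) : Prop :=
  ∀ x y : Fin n → ZMod p, y ≠ 0 → (∀ i : ℕ, i < k → x + i • y ∈ A) → y ∈ E

/-- the largest size of a set `A ⊆ F_p^n` whose nontrivial `k`-term progressions have at most `N`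
differences, that is `APOnly k E A` for a set `E` of at most `N` nonzero vectors -/
noncomputable def rex (k p n N : ℕ) : ℕ :=
  sSup {m : ℕ | ∃ E A : Finset (Fin n → ZMod p), 0 ∉ E ∧ E.card ≤ N ∧ APOnly k E A ∧ A.card = m}

variable {k p : ℕ} [hp : Fact p.Prime]

/-- fibres of a linear map -/
lemma fibre {n d : ℕ} {W : Type*} [AddCommGroup W] [Module (ZMod p) W]
    (T : (Fin n → ZMod p) →ₗ[ZMod p] W) (hd : Module.finrank (ZMod p) (LinearMap.ker T) = d)
    (A : Finset (Fin n → ZMod p))
    (hA : ∀ x y : Fin n → ZMod p, T y = 0 → (∀ i : ℕ, i < k → x + i • y ∈ A) → y = 0) :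
    A.card ≤ p ^ (n - d) * ru k p d := by
  classical
  have hfin : Module.finrank (ZMod p) (LinearMap.ker T) =
      Module.finrank (ZMod p) (Fin d → ZMod p) := by rw [hd]; simp
  let e : LinearMap.ker T ≃ₗ[ZMod p] (Fin d → ZMod p) := LinearEquiv.ofFinrankEq _ _ hfin
  have hfib : ∀ w ∈ A.image T, (A.filter fun x => T x = w).card ≤ ru k p d := by
    intro w hw
    obtain ⟨x₀, hx₀, rfl⟩ := Finset.mem_image.1 hw
    set B : Finset (Fin d → ZMod p) :=
      univ.filter fun u => x₀ + ((e.symm u : LinearMap.ker T) : Fin n → ZMod p) ∈ A with hB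
    have hBfree : APFree k B := by
      intro u v huv
      have h1 : ((e.symm v : LinearMap.ker T) : Fin n → ZMod p) = 0 := by
        refine hA (x₀ + ((e.symm u : LinearMap.ker T) : Fin n → ZMod p)) _
          (LinearMap.mem_ker.1 (e.symm v).2) fun i hi => ?_
        have h2 := (Finset.mem_filter.1 (huv i hi)).2
        rw [map_add, map_nsmul] at h2
        simpa [add_assoc] using h2
      have h3 : e.symm v = 0 := Subtype.ext h1
      simpa using h3
    have hsub : (A.filter fun x => T x = T x₀) ⊆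
        B.image fun u => x₀ + ((e.symm u : LinearMap.ker T) : Fin n → ZMod p) := by
      intro x hx
      rw [Finset.mem_filter] at hx
      have hk : x - x₀ ∈ LinearMap.ker T := by
        rw [LinearMap.mem_ker, map_sub, hx.2, sub_self]
      rw [Finset.mem_image]
      have h1 : x₀ + ((e.symm (e ⟨x - x₀, hk⟩) : LinearMap.ker T) : Fin n → ZMod p) = x := by
        simp
      refine ⟨e ⟨x - x₀, hk⟩, ?_, h1⟩
      rw [hB, Finset.mem_filter]
      refine ⟨mem_univ _, ?_⟩
      rw [h1]
      exact hx.1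
    exact (Finset.card_le_card hsub).trans
      (Finset.card_image_le.trans (le_r (Finset.subset_univ _) hBfree))
  have himg : (A.image T).card ≤ p ^ (n - d) := by
    have h1 : Module.finrank (ZMod p) (LinearMap.range T) = n - d := by
      have := LinearMap.finrank_range_add_finrank_ker T
      rw [hd, Module.finrank_fin_fun] at this
      omega
    have h2 : Nat.card (LinearMap.range T) = p ^ (n - d) := by
      rw [Module.natCard_eq_pow_finrank (K := ZMod p), h1, Nat.card_zmod]
    rw [← h2]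
    have : Finite (LinearMap.range T) := Module.finite_of_finite (ZMod p)
    have h3 : ((A.image T : Finset W) : Set W) ⊆ (LinearMap.range T : Set W) := by
      intro w hw
      obtain ⟨x, _, rfl⟩ := Finset.mem_image.1 (Finset.mem_coe.1 hw)
      exact ⟨x, rfl⟩
    have h4 := Set.ncard_le_ncard h3 (Set.toFinite _)
    rw [Set.ncard_coe_finset] at h4
    exact h4
  calc A.card = ∑ w ∈ A.image T, (A.filter fun x => T x = w).card :=
        Finset.card_eq_sum_card_image T A
    _ ≤ ∑ _w ∈ A.image T, ru k p d := Finset.sum_le_sum hfib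
    _ = (A.image T).card * ru k p d := by rw [Finset.sum_const, smul_eq_mul]
    _ ≤ _ := Nat.mul_le_mul_right _ himg

lemma ru_succ (hk : 1 ≤ k) (j : ℕ) : ru k p (j + 1) ≤ p * ru k p j := by
  obtain ⟨A, _, hA, hAc⟩ := exists_r (k := k) (univ : Finset (Fin (j + 1) → ZMod p)) hk
  have h1 : Module.finrank (ZMod p)
      (LinearMap.ker (LinearMap.proj 0 : (Fin (j + 1) → ZMod p) →ₗ[ZMod p] ZMod p)) = j := by
    have h2 := LinearMap.finrank_range_add_finrank_ker
      (LinearMap.proj 0 : (Fin (j + 1) → ZMod p) →ₗ[ZMod p] ZMod p)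
    have h3 : LinearMap.range (LinearMap.proj 0 : (Fin (j + 1) → ZMod p) →ₗ[ZMod p] ZMod p) = ⊤ :=
      LinearMap.range_eq_top.2 (LinearMap.proj_surjective 0)
    rw [h3, finrank_top, Module.finrank_self, Module.finrank_fin_fun] at h2
    omega
  have := fibre (k := k) (LinearMap.proj 0 : (Fin (j + 1) → ZMod p) →ₗ[ZMod p] ZMod p) h1 A
    fun x y _ h => hA x y h
  rw [hAc] at this
  simpa using this

lemma ru_add_le (hk : 1 ≤ k) (j i : ℕ) : ru k p (j + i) ≤ p ^ i * ru k p j := by
  induction i with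
  | zero => simp
  | succ i ih =>
    calc ru k p (j + i + 1) ≤ p * ru k p (j + i) := ru_succ hk _
      _ ≤ p * (p ^ i * ru k p j) := Nat.mul_le_mul_left _ ih
      _ = p ^ (i + 1) * ru k p j := by ring

/-- some matrix has no element of `E` in its kernel -/
lemma exists_avoid {n m : ℕ} (E : Finset (Fin n → ZMod p)) (h0 : 0 ∉ E) (hE : E.card < p ^ m) :
    ∃ M : Matrix (Fin m) (Fin n) (ZMod p), ∀ y ∈ E, M.mulVec y ≠ 0 := by
  classical
  by_contra hcon
  push Not at hcon
  set S : Finset (Matrix (Fin m) (Fin n) (ZMod p)) :=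
    E.biUnion fun y => univ.filter fun M : Matrix (Fin m) (Fin n) (ZMod p) => M.mulVec y = 0 with hS
  have h1 : S = univ := by
    rw [Finset.eq_univ_iff_forall]
    intro M
    obtain ⟨y, hy, hM⟩ := hcon M
    rw [hS, Finset.mem_biUnion]
    exact ⟨y, hy, Finset.mem_filter.2 ⟨mem_univ _, hM⟩⟩
  have h2 : p ^ m * S.card ≤ E.card * Fintype.card (Matrix (Fin m) (Fin n) (ZMod p)) := by
    calc p ^ m * S.card ≤ p ^ m * ∑ y ∈ E,
          (univ.filter fun M : Matrix (Fin m) (Fin n) (ZMod p) => M.mulVec y = 0).card :=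
          Nat.mul_le_mul_left _ Finset.card_biUnion_le
      _ = ∑ _y ∈ E, Fintype.card (Matrix (Fin m) (Fin n) (ZMod p)) := by
          rw [Finset.mul_sum]
          refine Finset.sum_congr rfl fun y hy => card_kernel y ?_
          rintro rfl
          exact h0 hy
      _ = _ := by rw [Finset.sum_const, smul_eq_mul]
  rw [h1, Finset.card_univ] at h2
  have h3 : 0 < Fintype.card (Matrix (Fin m) (Fin n) (ZMod p)) := Fintype.card_pos
  have := Nat.le_of_mul_le_mul_right h2 h3
  omega

/-- the upper bound -/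
lemma exc_upper (hk : 1 ≤ k) {n m : ℕ} (hmn : m ≤ n) {E A : Finset (Fin n → ZMod p)} (h0 : 0 ∉ E)
    (hE : E.card < p ^ m) (hA : APOnly k E A) : A.card ≤ p ^ m * ru k p (n - m) := by
  classical
  obtain ⟨M, hM⟩ := exists_avoid E h0 hE
  set d := Module.finrank (ZMod p) (LinearMap.ker (Matrix.mulVecLin M)) with hd
  have h1 : A.card ≤ p ^ (n - d) * ru k p d := by
    refine fibre (k := k) (Matrix.mulVecLin M) hd.symm A fun x y hy hxy => ?_
    by_contra hne
    exact hM y (hA x y hne hxy) (by simpa using hy)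
  have h2 : n ≤ m + d := by
    have h3 := LinearMap.finrank_range_add_finrank_ker (Matrix.mulVecLin M)
    rw [← hd, Module.finrank_fin_fun] at h3
    have h4 : Module.finrank (ZMod p) (LinearMap.range (Matrix.mulVecLin M)) ≤ m := by
      have := Submodule.finrank_le (LinearMap.range (Matrix.mulVecLin M))
      rwa [Module.finrank_fin_fun] at this
    omega
  have h5 : d ≤ n := by
    have := Submodule.finrank_le (LinearMap.ker (Matrix.mulVecLin M))
    rwa [Module.finrank_fin_fun] at this
  obtain ⟨i, hi⟩ := Nat.exists_eq_add_of_le (show n - m ≤ d by omega)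
  calc A.card ≤ p ^ (n - d) * ru k p d := h1
    _ = p ^ (n - d) * ru k p (n - m + i) := by rw [← hi]
    _ ≤ p ^ (n - d) * (p ^ i * ru k p (n - m)) := Nat.mul_le_mul_left _ (ru_add_le hk _ _)
    _ = p ^ (n - d + i) * ru k p (n - m) := by rw [pow_add, mul_assoc]
    _ = p ^ m * ru k p (n - m) := by
        congr 2
        omega

/-- the lower bound, by a subspace -/
lemma exc_lower (hk : 1 ≤ k) (j d : ℕ) : ∃ (V : Submodule (ZMod p) (Fin (j + d) → ZMod p))
    (E A : Finset (Fin (j + d) → ZMod p)), Module.finrank (ZMod p) V = d ∧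
      (∀ y, y ∈ E ↔ y ∈ V ∧ y ≠ 0) ∧ E.card = p ^ d - 1 ∧ APOnly k E A ∧
      A.card = p ^ d * ru k p j := by
  classical
  obtain ⟨A, _, hA, hAc⟩ := exists_r (k := k) (univ : Finset (Fin j → ZMod p)) hk
  set e := Fin.appendEquiv (α := ZMod p) j d with he
  let T : (Fin (j + d) → ZMod p) →ₗ[ZMod p] (Fin j → ZMod p) :=
    { toFun := fun x i => x (Fin.castAdd d i)
      map_add' := fun _ _ => rfl
      map_smul' := fun _ _ => rfl }
  have hT : ∀ x : Fin (j + d) → ZMod p, T x = fun i => x (Fin.castAdd d i) := fun _ => rfl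
  have hTs : Function.Surjective T := by
    intro a
    refine ⟨Fin.append a 0, ?_⟩
    rw [hT]
    funext i
    rw [Fin.append_left]
  have hfin : Module.finrank (ZMod p) (LinearMap.ker T) = d := by
    have h2 := LinearMap.finrank_range_add_finrank_ker T
    rw [LinearMap.range_eq_top.2 hTs, finrank_top, Module.finrank_fin_fun,
      Module.finrank_fin_fun] at h2
    omega
  set B := (A ×ˢ (univ : Finset (Fin d → ZMod p))).map e.toEmbedding with hB
  have hmemB : ∀ x, x ∈ B → T x ∈ A := by
    intro x hx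
    rw [hB, Finset.mem_map] at hx
    obtain ⟨⟨a, b⟩, hab, hE⟩ := hx
    rw [mem_product] at hab
    have hE' : Fin.append a b = x := hE
    have : T x = a := by
      rw [hT, ← hE']
      funext i
      rw [Fin.append_left]
    rw [this]
    exact hab.1
  set E : Finset (Fin (j + d) → ZMod p) := (univ.filter fun y => T y = 0).erase 0 with hEdef
  refine ⟨LinearMap.ker T, E, B, hfin, ?_, ?_, ?_, ?_⟩
  · intro y
    rw [hEdef, Finset.mem_erase, Finset.mem_filter, LinearMap.mem_ker]
    simp only [mem_univ, true_and]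
    tauto
  · rw [hEdef, Finset.card_erase_of_mem (by simp)]
    congr 1
    have h1 : Nat.card (LinearMap.ker T) = p ^ d := by
      rw [Module.natCard_eq_pow_finrank (K := ZMod p), hfin, Nat.card_zmod]
    rw [← h1, ← Fintype.card_subtype, Nat.card_eq_fintype_card]
    exact Fintype.card_congr (Equiv.refl _)
  · intro x y hy hxy
    rw [hEdef, Finset.mem_erase, Finset.mem_filter]
    refine ⟨hy, mem_univ _, ?_⟩
    refine hA (T x) (T y) fun i hi => ?_
    rw [← map_nsmul, ← map_add]
    exact hmemB _ (hxy i hi)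
  · rw [hB, card_map, card_product, hAc, card_univ, card_space, mul_comm]

lemma rex_bdd (n N : ℕ) : BddAbove {m : ℕ | ∃ E A : Finset (Fin n → ZMod p),
    0 ∉ E ∧ E.card ≤ N ∧ APOnly k E A ∧ A.card = m} := by
  refine ⟨p ^ n, ?_⟩
  rintro m ⟨E, A, _, _, _, rfl⟩
  have := Finset.card_le_univ A
  rwa [card_space] at this

lemma le_rex {n N : ℕ} {E A : Finset (Fin n → ZMod p)} (h0 : 0 ∉ E) (hE : E.card ≤ N)
    (hA : APOnly k E A) : A.card ≤ rex k p n N := le_csSup (rex_bdd n N) ⟨E, A, h0, hE, hA, rfl⟩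

lemma rex_le (hk : 1 ≤ k) {n m N : ℕ} (hmn : m ≤ n) (hN : N < p ^ m) :
    rex k p n N ≤ p ^ m * ru k p (n - m) := by
  apply csSup_le'
  rintro _ ⟨E, A, h0, hE, hA, rfl⟩
  exact exc_upper hk hmn h0 (by omega) hA

lemma le_rex' (hk : 1 ≤ k) {n m N : ℕ} (hmn : m ≤ n) (hN : p ^ m ≤ N + 1) :
    p ^ m * ru k p (n - m) ≤ rex k p n N := by
  obtain ⟨j, rfl⟩ := Nat.exists_eq_add_of_le' hmn
  obtain ⟨V, E, A, _, hE, hEc, hA, hAc⟩ := exc_lower (k := k) (p := p) hk j m
  rw [Nat.add_sub_cancel, ← hAc]
  exact le_rex (fun h => ((hE 0).1 h).2 rfl) (by omega) hA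

end Pool.Agent.KS6_70.RC
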