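import Pool.Agent.KS6_70.RC.Exc

/-!
Growth rates of sets in which all progressions have their difference in an exceptional set.
-/

set_option autoImplicit false
set_option linter.unusedSectionVars false

namespace Pool.Agent.KS6_70.RC

open Finset Filter Topology

/-- the largest size of a set `A` whose nontrivial `k`-term progressions have differences in `E` -/
noncomputable def rE (k : ℕ) {p n : ℕ} (E : Finset (Fin n → ZMod p)) : ℕ :=
  sSup {m : ℕ | ∃ A : Finset (Fin n → ZMod p), APOnly k E A ∧ A.card = m}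

variable {k p : ℕ} [hp : Fact p.Prime]

lemma log_p_pos' : 0 < Real.log p := Real.log_pos (by exact_mod_cast hp.out.one_lt)

lemma ru_sub_lim {L : ℝ} (hL : Tendsto (fun n : ℕ => Real.log (ru k p n) / n) atTop (𝓝 L))
    {e : ℕ → ℕ} (he : ∀ n, e n ≤ n) {c : ℝ}
    (hc : Tendsto (fun n : ℕ => (e n : ℝ) / n) atTop (𝓝 c)) :
    Tendsto (fun n : ℕ => Real.log (ru k p (e n)) / n) atTop (𝓝 (c * L)) := by
  have key : Tendsto (fun n : ℕ => (Real.log (ru k p (e n)) - L * e n) / n) atTop (𝓝 0) := by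
    rw [Metric.tendsto_atTop]
    intro ε hε
    rw [Metric.tendsto_atTop] at hL
    obtain ⟨M, hM⟩ := hL (ε / 2) (by positivity)
    set g : ℕ → ℝ := fun m => |Real.log (ru k p m) - L * m| with hg
    set C : ℝ := ∑ m ∈ range (M + 1), g m with hC
    have hC0 : 0 ≤ C := Finset.sum_nonneg fun m _ => abs_nonneg _
    have hbound : ∀ m : ℕ, g m ≤ ε / 2 * m + C := by
      intro m
      rcases Nat.lt_or_ge m (M + 1) with h | h
      · have h1 : g m ≤ C :=
          Finset.single_le_sum (f := g) (fun m _ => abs_nonneg _) (Finset.mem_range.2 h)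
        have h2 : 0 ≤ ε / 2 * m := by positivity
        linarith
      · have h1 := hM m (by omega)
        have hm : (0 : ℝ) < m := by exact_mod_cast (by omega : 0 < m)
        rw [Real.dist_eq] at h1
        have h2 : g m = |Real.log (ru k p m) / m - L| * m := by
          rw [hg]
          simp only
          rw [← abs_of_pos hm, ← abs_mul, abs_of_pos hm, sub_mul, div_mul_cancel₀ _ hm.ne']
        rw [h2]
        nlinarith
    obtain ⟨N₀, hN₀⟩ := exists_nat_gt (2 * C / ε)
    refine ⟨N₀ + 1, fun n hn => ?_⟩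
    have hn0 : (0 : ℝ) < n := by exact_mod_cast (by omega : 0 < n)
    rw [Real.dist_eq, sub_zero, abs_div, abs_of_pos hn0, div_lt_iff₀ hn0]
    have h1 := hbound (e n)
    have h2 : (e n : ℝ) ≤ n := by exact_mod_cast he n
    have h3 : 2 * C / ε < n := hN₀.trans_le (by exact_mod_cast (by omega : N₀ ≤ n))
    rw [div_lt_iff₀ hε] at h3
    have h4 : ε / 2 * e n ≤ ε / 2 * n := mul_le_mul_of_nonneg_left h2 (by positivity)
    calc |Real.log (ru k p (e n)) - L * e n| = g (e n) := rfl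
      _ ≤ ε / 2 * e n + C := h1
      _ < ε * n := by nlinarith
  have h2 := key.add (hc.mul_const L)
  rw [zero_add] at h2
  refine h2.congr fun n => ?_
  ring

lemma div_lim {N : ℕ → ℕ} {ε : ℝ} {d : ℕ → ℕ} {a b : ℝ}
    (h : Tendsto (fun n : ℕ => Real.log ((N n : ℝ) + 1) / n) atTop (𝓝 (ε * Real.log p)))
    (h1 : ∀ n, Real.log ((N n : ℝ) + 1) - a ≤ d n * Real.log p)
    (h2 : ∀ n, d n * Real.log p ≤ Real.log ((N n : ℝ) + 1) + b) :
    Tendsto (fun n : ℕ => (d n : ℝ) / n) atTop (𝓝 ε) := by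
  have hlp := log_p_pos' (p := p)
  have ha : Tendsto (fun n : ℕ => a / (n : ℝ)) atTop (𝓝 0) :=
    tendsto_const_nhds.div_atTop tendsto_natCast_atTop_atTop
  have hb : Tendsto (fun n : ℕ => b / (n : ℝ)) atTop (𝓝 0) :=
    tendsto_const_nhds.div_atTop tendsto_natCast_atTop_atTop
  have hl := (h.sub ha).div_const (Real.log p)
  have hu := (h.add hb).div_const (Real.log p)
  rw [sub_zero, mul_div_cancel_right₀ _ hlp.ne'] at hl
  rw [add_zero, mul_div_cancel_right₀ _ hlp.ne'] at hu
  refine tendsto_of_tendsto_of_tendsto_of_le_of_le' hl hu ?_ ?_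
  · filter_upwards [eventually_gt_atTop 0] with n hn
    have hn' : (0 : ℝ) < n := by exact_mod_cast hn
    rw [div_le_iff₀ hlp, ← sub_div, div_mul_eq_mul_div]
    exact div_le_div_of_nonneg_right (h1 n) hn'.le
  · filter_upwards [eventually_gt_atTop 0] with n hn
    have hn' : (0 : ℝ) < n := by exact_mod_cast hn
    rw [le_div_iff₀ hlp, ← add_div, div_mul_eq_mul_div]
    exact div_le_div_of_nonneg_right (h2 n) hn'.le

lemma clog_add_one_bounds (N : ℕ) : Real.log ((N : ℝ) + 1) - 0 ≤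
      (Nat.clog p (N + 1) : ℝ) * Real.log p ∧
    (Nat.clog p (N + 1) : ℝ) * Real.log p ≤ Real.log ((N : ℝ) + 1) + Real.log p := by
  have hp1 := hp.out.one_lt
  have hlp := log_p_pos' (p := p)
  have hp' : (0 : ℝ) < p := by exact_mod_cast hp.out.pos
  have hN : (0 : ℝ) < (N : ℝ) + 1 := by positivity
  constructor
  · have h1 : N + 1 ≤ p ^ Nat.clog p (N + 1) := Nat.le_pow_clog hp1 _
    have h2 : Real.log ((N : ℝ) + 1) ≤ Real.log ((p : ℝ) ^ Nat.clog p (N + 1)) :=
      Real.log_le_log hN (by exact_mod_cast h1)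
    rw [Real.log_pow] at h2
    linarith
  · rcases Nat.eq_zero_or_pos N with h | h
    · subst h
      simp only [zero_add, Nat.clog_one_right, Nat.cast_zero, zero_mul, Real.log_one]
      exact hlp.le
    · have h1 : p ^ (Nat.clog p (N + 1)).pred < N + 1 :=
        Nat.pow_pred_clog_lt_self hp1 (by omega)
      have hpos : 0 < Nat.clog p (N + 1) := Nat.clog_pos hp1 (by omega)
      have h2 : p ^ Nat.clog p (N + 1) ≤ (N + 1) * p := by
        obtain ⟨s, hs⟩ := Nat.exists_eq_succ_of_ne_zero hpos.ne'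
        rw [hs] at h1 ⊢
        rw [Nat.succ_eq_add_one, pow_succ]
        exact Nat.mul_le_mul_right _ h1.le
      have h3 : Real.log ((p : ℝ) ^ Nat.clog p (N + 1)) ≤ Real.log (((N : ℝ) + 1) * p) :=
        Real.log_le_log (by positivity) (by exact_mod_cast h2)
      rw [Real.log_pow, Real.log_mul hN.ne' hp'.ne'] at h3
      exact h3

lemma log_add_one_bounds (N : ℕ) : Real.log ((N : ℝ) + 1) - Real.log p ≤
      (Nat.log p (N + 1) : ℝ) * Real.log p ∧
    (Nat.log p (N + 1) : ℝ) * Real.log p ≤ Real.log ((N : ℝ) + 1) + 0 := by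
  have hp1 := hp.out.one_lt
  have hN : (0 : ℝ) < (N : ℝ) + 1 := by positivity
  constructor
  · have h1 : N + 1 < p ^ (Nat.log p (N + 1) + 1) := Nat.lt_pow_succ_log_self hp1 _
    have h2 : Real.log ((N : ℝ) + 1) ≤ Real.log ((p : ℝ) ^ (Nat.log p (N + 1) + 1)) :=
      Real.log_le_log hN (by exact_mod_cast h1.le)
    rw [Real.log_pow] at h2
    push_cast at h2
    linarith
  · have h1 : p ^ Nat.log p (N + 1) ≤ N + 1 := Nat.pow_log_le_self p (by omega)
    have h2 : Real.log ((p : ℝ) ^ Nat.log p (N + 1)) ≤ Real.log ((N : ℝ) + 1) :=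
      Real.log_le_log (by have : (0 : ℝ) < p := by exact_mod_cast hp.out.pos
                          positivity) (by exact_mod_cast h1)
    rw [Real.log_pow] at h2
    linarith

lemma clog_le {n N : ℕ} (h : N < p ^ n) : Nat.clog p (N + 1) ≤ n :=
  Nat.clog_le_of_le_pow (by omega)

lemma nlog_le {n N : ℕ} (h : N < p ^ n) : Nat.log p (N + 1) ≤ n := by
  have h1 : p ^ Nat.log p (N + 1) ≤ p ^ n :=
    (Nat.pow_log_le_self p (by omega)).trans (by omega)
  exact (Nat.pow_le_pow_iff_right hp.out.one_lt).1 h1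

lemma rex_lim_aux (hk : 2 ≤ k) {L : ℝ}
    (hL : Tendsto (fun n : ℕ => Real.log (ru k p n) / n) atTop (𝓝 L)) {d : ℕ → ℕ}
    (hd : ∀ n, d n ≤ n) {ε : ℝ} (hde : Tendsto (fun n : ℕ => (d n : ℝ) / n) atTop (𝓝 ε)) :
    Tendsto (fun n : ℕ => Real.log ((p : ℝ) ^ d n * ru k p (n - d n)) / n) atTop
      (𝓝 (ε * Real.log p + (1 - ε) * L)) := by
  have h1 : Tendsto (fun n : ℕ => ((n - d n : ℕ) : ℝ) / n) atTop (𝓝 (1 - ε)) := by
    refine (hde.const_sub 1).congr' ?_
    filter_upwards [eventually_gt_atTop 0] with n hn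
    have hn' : (0 : ℝ) < n := by exact_mod_cast hn
    rw [Nat.cast_sub (hd n)]
    field_simp
  have h2 := (hde.mul_const (Real.log p)).add (ru_sub_lim hL (fun n => Nat.sub_le n (d n)) h1)
  refine h2.congr fun n => ?_
  have hp' : (0 : ℝ) < p := by exact_mod_cast hp.out.pos
  have hr : (0 : ℝ) < ru k p (n - d n) := by exact_mod_cast one_le_ru hk _
  rw [Real.log_mul (by positivity) hr.ne', Real.log_pow]
  ring

lemma one_le_rex (hk : 2 ≤ k) (n N : ℕ) : 1 ≤ rex k p n N := by
  have := le_rex' (p := p) (k := k) (by omega) (Nat.zero_le n) (N := N) (m := 0) (by simp)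
  rw [pow_zero, one_mul, Nat.sub_zero] at this
  exact (one_le_ru hk n).trans this

lemma rex_lim (hk : 2 ≤ k) {L : ℝ}
    (hL : Tendsto (fun n : ℕ => Real.log (ru k p n) / n) atTop (𝓝 L)) {N : ℕ → ℕ}
    (hN : ∀ n, N n < p ^ n) {ε : ℝ}
    (h : Tendsto (fun n : ℕ => Real.log ((N n : ℝ) + 1) / n) atTop (𝓝 (ε * Real.log p))) :
    Tendsto (fun n : ℕ => Real.log (rex k p n (N n)) / n) atTop
      (𝓝 (ε * Real.log p + (1 - ε) * L)) := by
  have hp' : (0 : ℝ) < p := by exact_mod_cast hp.out.pos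
  have h1 := rex_lim_aux hk hL (d := fun n => Nat.log p (N n + 1)) (fun n => nlog_le (hN n))
    (div_lim (p := p) h (fun n => (log_add_one_bounds (N n)).1)
      (fun n => (log_add_one_bounds (N n)).2))
  have h2 := rex_lim_aux hk hL (d := fun n => Nat.clog p (N n + 1)) (fun n => clog_le (hN n))
    (div_lim (p := p) h (fun n => (clog_add_one_bounds (N n)).1)
      (fun n => (clog_add_one_bounds (N n)).2))
  refine tendsto_of_tendsto_of_tendsto_of_le_of_le h1 h2 ?_ ?_
  · intro n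
    refine div_le_div_of_nonneg_right ?_ (Nat.cast_nonneg n)
    have hr : (0 : ℝ) < ru k p (n - Nat.log p (N n + 1)) := by exact_mod_cast one_le_ru hk _
    refine Real.log_le_log (by positivity) ?_
    exact_mod_cast le_rex' (by omega) (nlog_le (hN n)) (Nat.pow_log_le_self p (by omega))
  · intro n
    refine div_le_div_of_nonneg_right ?_ (Nat.cast_nonneg n)
    refine Real.log_le_log (by exact_mod_cast one_le_rex hk n _) ?_
    exact_mod_cast rex_le (by omega) (clog_le (hN n))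
      (Nat.lt_of_succ_le (Nat.le_pow_clog hp.out.one_lt _))

lemma rE_bdd {n : ℕ} (E : Finset (Fin n → ZMod p)) :
    BddAbove {m : ℕ | ∃ A : Finset (Fin n → ZMod p), APOnly k E A ∧ A.card = m} := by
  refine ⟨p ^ n, ?_⟩
  rintro m ⟨A, _, rfl⟩
  have := Finset.card_le_univ A
  rwa [card_space] at this

lemma ru_le_rE (hk : 1 ≤ k) {n : ℕ} (E : Finset (Fin n → ZMod p)) : ru k p n ≤ rE k E := by
  obtain ⟨A, _, hA, hAc⟩ := exists_r (k := k) (univ : Finset (Fin n → ZMod p)) hk
  exact le_csSup (rE_bdd E) ⟨A, fun x y hy hxy => absurd (hA x y hxy) hy, hAc⟩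

lemma rE_le_rex {n N : ℕ} {E : Finset (Fin n → ZMod p)} (h0 : 0 ∉ E) (hE : E.card ≤ N) :
    rE k E ≤ rex k p n N := by
  apply csSup_le'
  rintro m ⟨A, hA, rfl⟩
  exact le_rex h0 hE hA

lemma card_lt {n : ℕ} {E : Finset (Fin n → ZMod p)} (h0 : 0 ∉ E) : E.card < p ^ n := by
  rw [← card_space (p := p) (n := n), ← Finset.card_univ]
  exact Finset.card_lt_card (Finset.ssubset_univ_iff.2 fun h => h0 (h ▸ mem_univ 0))

lemma rE_lim (hk : 2 ≤ k) {L : ℝ}
    (hL : Tendsto (fun n : ℕ => Real.log (ru k p n) / n) atTop (𝓝 L))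
    (E : ∀ n : ℕ, Finset (Fin n → ZMod p)) (h0 : ∀ n, 0 ∉ E n)
    (h : Tendsto (fun n : ℕ => Real.log (((E n).card : ℝ) + 1) / n) atTop (𝓝 0)) :
    Tendsto (fun n : ℕ => Real.log (rE k (E n)) / n) atTop (𝓝 L) := by
  have h1 := rex_lim hk hL (N := fun n => (E n).card) (fun n => card_lt (h0 n)) (ε := 0)
    (by rwa [zero_mul])
  rw [zero_mul, zero_add, sub_zero, one_mul] at h1
  refine tendsto_of_tendsto_of_tendsto_of_le_of_le hL h1 ?_ ?_
  · intro n
    refine div_le_div_of_nonneg_right ?_ (Nat.cast_nonneg n)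
    refine Real.log_le_log (by exact_mod_cast one_le_ru hk n) ?_
    exact_mod_cast ru_le_rE (by omega) (E n)
  · intro n
    refine div_le_div_of_nonneg_right ?_ (Nat.cast_nonneg n)
    refine Real.log_le_log (by exact_mod_cast (one_le_ru hk n).trans (ru_le_rE (by omega) (E n))) ?_
    exact_mod_cast rE_le_rex (h0 n) le_rfl

end Pool.Agent.KS6_70.RC
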