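import Pool.Agent.KS6_70.RC.Limit

/-!
Functions `F_p^m → F_p^s` whose graphs contain no nontrivial progressions.
-/

set_option autoImplicit false
set_option linter.unusedSectionVars false

namespace Pool.Agent.KS6_70.RC

open Finset Filter Topology

/-- The values of `f` on a nontrivial `k`-term progression never form a (possibly constant)
progression; that is, the graph of `f` contains no nontrivial `k`-term progression. -/
def Nonflat (k : ℕ) {p m s : ℕ} (f : (Fin m → ZMod p) → (Fin s → ZMod p)) : Prop :=
  ∀ x y : Fin m → ZMod p, y ≠ 0 →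
    ¬ ∃ u v : Fin s → ZMod p, ∀ i : ℕ, i < k → f (x + i • y) = u + i • v

/-- the least `s` such that some `f : F_p^m → F_p^s` is `Nonflat` -/
noncomputable def codim (k p m : ℕ) : ℕ :=
  sInf {s : ℕ | ∃ f : (Fin m → ZMod p) → (Fin s → ZMod p), Nonflat k f}

variable {k p : ℕ} [hp : Fact p.Prime]

/-- sets with fewer than `k` points -/
lemma apfree_small (hkp : k ≤ p) {n : ℕ} {A : Finset (Fin n → ZMod p)} (hA : A.card < k) :
    APFree k A := by
  classical
  intro x y hxy
  by_contra hy
  obtain ⟨c, hc⟩ := Function.ne_iff.1 hy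
  have h1 : (range k).image (fun i : ℕ => x + i • y) ⊆ A := by
    intro v hv
    obtain ⟨i, hi, rfl⟩ := Finset.mem_image.1 hv
    exact hxy i (Finset.mem_range.1 hi)
  have h2 : ((range k).image (fun i : ℕ => x + i • y)).card = k := by
    rw [Finset.card_image_of_injOn, Finset.card_range]
    intro i hi j hj hij
    have h3 := congrFun hij c
    simp only [Pi.add_apply, nsmul_eq_mul, add_right_inj] at h3
    have h4 : (i : ZMod p) = j := mul_right_cancel₀ hc h3
    rw [ZMod.natCast_eq_natCast_iff'] at h4
    have hi' : i < p := lt_of_lt_of_le (Finset.mem_range.1 (Finset.mem_coe.1 hi)) hkp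
    have hj' : j < p := lt_of_lt_of_le (Finset.mem_range.1 (Finset.mem_coe.1 hj)) hkp
    rwa [Nat.mod_eq_of_lt hi', Nat.mod_eq_of_lt hj'] at h4
  have := Finset.card_le_card h1
  omega

lemma ru_one (hk : 1 ≤ k) (hkp : k ≤ p) : k - 1 ≤ ru k p 1 := by
  obtain ⟨A, _, hA⟩ := Finset.exists_subset_card_eq
    (s := (univ : Finset (Fin 1 → ZMod p))) (n := k - 1)
    (by rw [Finset.card_univ, card_space, pow_one]; omega)
  rw [← hA]
  exact le_r (Finset.subset_univ _) (apfree_small hkp (by omega))

lemma pow_le_ru (hk : 3 ≤ k) (hkp : k ≤ p) (s : ℕ) : 2 ^ s ≤ ru k p s := by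
  induction s with
  | zero => simpa using one_le_ru (p := p) (k := k) (by omega) 0
  | succ s ih =>
    have h1 := ru_one (p := p) (k := k) (by omega) hkp
    calc 2 ^ (s + 1) = 2 ^ s * 2 := pow_succ _ _
      _ ≤ ru k p s * ru k p 1 := Nat.mul_le_mul ih (by omega)
      _ ≤ ru k p (s + 1) := ru_mul_le s 1 (by omega)

/-- graphs -/
lemma graph_bound (hk : 2 ≤ k) {m s : ℕ} {f : (Fin m → ZMod p) → (Fin s → ZMod p)}
    (hf : Nonflat k f) : p ^ m ≤ ru k p (m + s) := by
  classical
  set A : Finset (Fin (m + s) → ZMod p) :=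
    univ.image fun x : Fin m → ZMod p => Fin.append x (f x) with hA
  have hcard : A.card = p ^ m := by
    rw [hA, Finset.card_image_of_injective, Finset.card_univ, card_space]
    intro x x' h
    funext i
    have := congrFun h (Fin.castAdd s i)
    simpa [Fin.append_left] using this
  have hfree : APFree k A := by
    intro z w hzw
    set x : Fin m → ZMod p := fun i => z (Fin.castAdd s i) with hx
    set y : Fin m → ZMod p := fun i => w (Fin.castAdd s i) with hy
    set u : Fin s → ZMod p := fun i => z (Fin.natAdd m i) with hu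
    set v : Fin s → ZMod p := fun i => w (Fin.natAdd m i) with hv
    have key : ∀ i : ℕ, i < k → f (x + i • y) = u + i • v := by
      intro i hi
      obtain ⟨a, _, ha⟩ := Finset.mem_image.1 (hzw i hi)
      have h1 : a = x + i • y := by
        funext j
        have := congrFun ha (Fin.castAdd s j)
        rw [Fin.append_left] at this
        rw [this]
        rfl
      rw [← h1]
      funext j
      have := congrFun ha (Fin.natAdd m j)
      rw [Fin.append_right] at this
      rw [this]
      rfl
    have hy0 : y = 0 := by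
      by_contra hne
      exact hf x y hne ⟨u, v, key⟩
    have hv0 : v = 0 := by
      have h0 := key 0 (by omega)
      have h1 := key 1 (by omega)
      rw [hy0] at h0 h1
      simp only [zero_smul, one_smul, smul_zero, add_zero] at h0 h1
      rw [h0] at h1
      simpa using h1
    funext i
    refine Fin.addCases (fun i => ?_) (fun i => ?_) i
    · exact congrFun hy0 i
    · exact congrFun hv0 i
  rw [← hcard]
  exact le_r (Finset.subset_univ _) hfree

/-- `Nonflat` in terms of the graph -/
lemma graph_iff (hk : 2 ≤ k) {m s : ℕ} (f : (Fin m → ZMod p) → (Fin s → ZMod p)) :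
    APFree k (univ.image fun x : Fin m → ZMod p => (Fin.append x (f x) : Fin (m + s) → ZMod p)) ↔
      Nonflat k f := by
  classical
  constructor
  · intro h x y hy
    rintro ⟨u, v, huv⟩
    have h1 : (Fin.append y v : Fin (m + s) → ZMod p) = 0 := by
      refine h (Fin.append x u) _ fun i hi => ?_
      rw [Finset.mem_image]
      refine ⟨x + i • y, mem_univ _, ?_⟩
      rw [huv i hi]
      funext j
      refine Fin.addCases (fun j => ?_) (fun j => ?_) j
      · simp [Fin.append_left]
      · simp [Fin.append_right]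
    apply hy
    funext j
    have := congrFun h1 (Fin.castAdd s j)
    rwa [Fin.append_left] at this
  · intro hf z w hzw
    set x : Fin m → ZMod p := fun i => z (Fin.castAdd s i) with hx
    set y : Fin m → ZMod p := fun i => w (Fin.castAdd s i) with hy
    set u : Fin s → ZMod p := fun i => z (Fin.natAdd m i) with hu
    set v : Fin s → ZMod p := fun i => w (Fin.natAdd m i) with hv
    have key : ∀ i : ℕ, i < k → f (x + i • y) = u + i • v := by
      intro i hi
      obtain ⟨a, _, ha⟩ := Finset.mem_image.1 (hzw i hi)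
      have h1 : a = x + i • y := by
        funext j
        have := congrFun ha (Fin.castAdd s j)
        rw [Fin.append_left] at this
        rw [this]
        rfl
      rw [← h1]
      funext j
      have := congrFun ha (Fin.natAdd m j)
      rw [Fin.append_right] at this
      rw [this]
      rfl
    have hy0 : y = 0 := by
      by_contra hne
      exact hf x y hne ⟨u, v, key⟩
    have hv0 : v = 0 := by
      have h0 := key 0 (by omega)
      have h1 := key 1 (by omega)
      rw [hy0] at h0 h1
      simp only [zero_smul, one_smul, smul_zero, add_zero] at h0 h1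
      rw [h0] at h1
      simpa using h1
    funext i
    refine Fin.addCases (fun i => ?_) (fun i => ?_) i
    · exact congrFun hy0 i
    · exact congrFun hv0 i

/-- functions from colourings -/
lemma nonflat_of_colourable {m s c : ℕ} (hc : Colourable k (univ : Finset (Fin m → ZMod p)) c)
    (h : c ≤ ru k p s) (hk : 1 ≤ k) : ∃ f : (Fin m → ZMod p) → (Fin s → ZMod p), Nonflat k f := by
  classical
  obtain ⟨A, _, hA, hAc⟩ := exists_r (k := k) (univ : Finset (Fin s → ZMod p)) hk
  obtain ⟨col, hcol⟩ := hc
  have h' : c ≤ A.card := by rw [hAc]; exact h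
  set g : Fin c → (Fin s → ZMod p) := fun a => ((A.equivFin.symm (Fin.castLE h' a)) : A).1 with hg
  have hginj : Function.Injective g := by
    intro a b hab
    have h1 : A.equivFin.symm (Fin.castLE h' a) = A.equivFin.symm (Fin.castLE h' b) :=
      Subtype.ext hab
    exact Fin.castLE_injective h' (A.equivFin.symm.injective h1)
  have hgA : ∀ a, g a ∈ A := fun a => (A.equivFin.symm (Fin.castLE h' a)).2
  refine ⟨fun x => g (col x), fun x y hy => ?_⟩
  rintro ⟨u, v, huv⟩
  have hv : v = 0 := hA u v fun i hi => by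
    rw [← huv i hi]
    exact hgA _
  obtain ⟨i, j, hi, hj, hij⟩ := hcol x y hy fun _ _ => mem_univ _
  apply hij
  apply hginj
  have h1 := huv i hi
  have h2 := huv j hj
  rw [hv, smul_zero] at h1 h2
  exact h1.trans h2.symm

lemma codim_spec (hk : 3 ≤ k) (hkp : k ≤ p) (m : ℕ) :
    ∃ f : (Fin m → ZMod p) → (Fin (codim k p m) → ZMod p), Nonflat k f := by
  refine Nat.sInf_mem
    (s := {s : ℕ | ∃ f : (Fin m → ZMod p) → (Fin s → ZMod p), Nonflat k f}) ⟨cu k p m, ?_⟩
  exact nonflat_of_colourable (chi_spec (by omega) _)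
    ((Nat.lt_two_pow_self).le.trans (pow_le_ru hk hkp _)) (by omega)

lemma codim_le (hk : 2 ≤ k) {m s : ℕ} (h : cu k p m ≤ ru k p s) : codim k p m ≤ s :=
  Nat.sInf_le (nonflat_of_colourable (chi_spec hk _) h (by omega))

lemma le_codim (hk : 3 ≤ k) (hkp : k ≤ p) (m : ℕ) : p ^ m ≤ ru k p (m + codim k p m) := by
  obtain ⟨f, hf⟩ := codim_spec hk hkp m
  exact graph_bound (by omega) hf

lemma log_two_le (hk : 3 ≤ k) (hkp : k ≤ p) {L : ℝ} (hL : ∀ n : ℕ, Real.log (ru k p n) ≤ n * L) :
    Real.log 2 ≤ L := by
  have h1 := hL 1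
  have h2 := pow_le_ru hk hkp 1
  have h3 : Real.log 2 ≤ Real.log (ru k p 1) :=
    Real.log_le_log (by norm_num) (by exact_mod_cast (by simpa using h2 : 2 ≤ ru k p 1))
  rw [Nat.cast_one, one_mul] at h1
  linarith

lemma codim_lower (hk : 3 ≤ k) (hkp : k ≤ p) {L : ℝ}
    (hL : ∀ n : ℕ, Real.log (ru k p n) ≤ n * L) (m : ℕ) :
    (m : ℝ) * Real.log p ≤ ((m : ℝ) + codim k p m) * L := by
  have hp0 : (0 : ℝ) < p := by exact_mod_cast hp.out.pos
  have h1 : ((p : ℝ) ^ m) ≤ ru k p (m + codim k p m) := by exact_mod_cast le_codim hk hkp m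
  have h2 := Real.log_le_log (by positivity) h1
  rw [Real.log_pow] at h2
  have h3 := hL (m + codim k p m)
  push_cast at h3
  linarith

lemma codim_lim (hk : 3 ≤ k) (hkp : k ≤ p) {L : ℝ}
    (hL : Tendsto (fun n : ℕ => Real.log (ru k p n) / n) atTop (𝓝 L))
    (hLn : ∀ n : ℕ, Real.log (ru k p n) ≤ n * L) (hLp : L ≤ Real.log p) :
    Tendsto (fun m : ℕ => (codim k p m : ℝ) / m) atTop (𝓝 (Real.log p / L - 1)) := by
  have hk2 : 2 ≤ k := by omega
  have hL0 : 0 < L := lt_of_lt_of_le (Real.log_pos (by norm_num)) (log_two_le hk hkp hLn)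
  set θ := Real.log p / L - 1 with hθ
  have hθ0 : 0 ≤ θ := by
    rw [hθ, sub_nonneg, le_div_iff₀ hL0, one_mul]
    exact hLp
  have hθL : θ * L = Real.log p - L := by
    rw [hθ, sub_mul, div_mul_cancel₀ _ hL0.ne', one_mul]
  have hcu := cu_lim (p := p) hk2 hL
  rw [tendsto_order]
  constructor
  · intro a ha
    filter_upwards [eventually_gt_atTop 0] with m hm
    have hm' : (0 : ℝ) < m := by exact_mod_cast hm
    refine lt_of_lt_of_le ha ?_
    rw [le_div_iff₀ hm']
    have h1 := codim_lower hk hkp hLn m
    have h2 : θ * m * L ≤ codim k p m * L := by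
      calc θ * m * L = (Real.log p - L) * m := by rw [← hθL]; ring
        _ ≤ codim k p m * L := by nlinarith
    exact le_of_mul_le_mul_right h2 hL0
  · intro b hb
    set δ := (b - θ) / 2 with hδ
    have hδ0 : 0 < δ := by rw [hδ]; linarith
    set e : ℕ → ℕ := fun m => ⌈(θ + δ) * m⌉₊ with he
    have hpos : 0 < θ + δ := by linarith
    have he1 : ∀ m : ℕ, (θ + δ) * m ≤ e m := fun m => Nat.le_ceil _
    have he2 : ∀ m : ℕ, (e m : ℝ) ≤ (θ + δ) * m + 1 := fun m =>
      (Nat.ceil_lt_add_one (by positivity)).le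
    have heinf : Tendsto e atTop atTop := by
      have h1 : Tendsto (fun m : ℕ => (θ + δ) * (m : ℝ)) atTop atTop :=
        tendsto_natCast_atTop_atTop.const_mul_atTop hpos
      exact tendsto_natCast_atTop_iff.1 (tendsto_atTop_mono he1 h1)
    have hequot : Tendsto (fun m : ℕ => (e m : ℝ) / m) atTop (𝓝 (θ + δ)) := by
      have h1 : Tendsto (fun m : ℕ => (θ + δ) + 1 / (m : ℝ)) atTop (𝓝 (θ + δ)) := by
        have := (tendsto_one_div_atTop_nhds_zero_nat (𝕜 := ℝ)).const_add (θ + δ)
        rwa [add_zero] at this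
      refine tendsto_of_tendsto_of_tendsto_of_le_of_le' tendsto_const_nhds h1 ?_ ?_
      · filter_upwards [eventually_gt_atTop 0] with m hm
        have hm' : (0 : ℝ) < m := by exact_mod_cast hm
        rw [le_div_iff₀ hm']
        exact he1 m
      · filter_upwards [eventually_gt_atTop 0] with m hm
        have hm' : (0 : ℝ) < m := by exact_mod_cast hm
        rw [div_le_iff₀ hm', add_mul, one_div, inv_mul_cancel₀ hm'.ne']
        exact he2 m
    have hru : Tendsto (fun m : ℕ => Real.log (ru k p (e m)) / m) atTop (𝓝 (L * (θ + δ))) := by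
      refine ((hL.comp heinf).mul hequot).congr' ?_
      filter_upwards [heinf.eventually (eventually_gt_atTop 0)] with m hm
      have hm' : (0 : ℝ) < (e m : ℕ) := by exact_mod_cast hm
      rw [Function.comp_apply, div_mul_div_comm, mul_comm (Real.log _) _,
        mul_div_mul_left _ _ hm'.ne']
    have hlt : Real.log p - L < L * (θ + δ) := by
      rw [← hθL]
      nlinarith
    obtain ⟨t, ht1, ht2⟩ := exists_between hlt
    have h1m : Tendsto (fun m : ℕ => (θ + δ) + 1 / (m : ℝ)) atTop (𝓝 (θ + δ)) := by
      have := (tendsto_one_div_atTop_nhds_zero_nat (𝕜 := ℝ)).const_add (θ + δ)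
      rwa [add_zero] at this
    have hbδ : θ + δ < b := by rw [hδ]; linarith
    filter_upwards [hcu.eventually (gt_mem_nhds ht1), hru.eventually (lt_mem_nhds ht2),
      h1m.eventually (gt_mem_nhds hbδ), eventually_gt_atTop 0] with m h1 h2 h3 hm
    have hm' : (0 : ℝ) < m := by exact_mod_cast hm
    have h4 : Real.log (cu k p m) < Real.log (ru k p (e m)) := by
      have h5 := h1.trans h2
      rwa [div_lt_div_iff_of_pos_right hm'] at h5
    have hr : (0 : ℝ) < ru k p (e m) := by exact_mod_cast one_le_ru hk2 _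
    have h6 : cu k p m ≤ ru k p (e m) := by
      rcases Nat.eq_zero_or_pos (cu k p m) with h0 | h0
      · rw [h0]; exact Nat.zero_le _
      · have h7 : (0 : ℝ) < cu k p m := by exact_mod_cast h0
        have h8 := (Real.log_lt_log_iff h7 hr).1 h4
        exact_mod_cast h8.le
    have h7 : (codim k p m : ℝ) ≤ e m := by exact_mod_cast codim_le hk2 h6
    refine lt_of_le_of_lt ?_ h3
    rw [div_le_iff₀ hm', add_mul, one_div, inv_mul_cancel₀ hm'.ne']
    exact h7.trans (he2 m)

end Pool.Agent.KS6_70.RC
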