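import Pool.Agent.KS6_70.RC.Base

/-!
The growth rates of progression-free sets, of colourings and of Ramsey numbers.
-/

set_option autoImplicit false
set_option linter.unusedSectionVars false

namespace Pool.Agent.KS6_70.RC

open Finset Filter Topology

variable {k p : ℕ} [hp : Fact p.Prime]

/-- `r_k(F_p^n)` -/
noncomputable abbrev ru (k p n : ℕ) [NeZero p] : ℕ := r k (univ : Finset (Fin n → ZMod p))

/-- the least number of colours for `F_p^n` -/
noncomputable abbrev cu (k p n : ℕ) [NeZero p] : ℕ := chi k (univ : Finset (Fin n → ZMod p))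

lemma one_le_ru (hk : 2 ≤ k) (n : ℕ) : 1 ≤ ru k p n :=
  one_le_r (univ_nonempty : (univ : Finset (Fin n → ZMod p)).Nonempty) hk

lemma ru_le (n : ℕ) : ru k p n ≤ p ^ n := by
  refine (r_le_card _).trans ?_
  rw [Finset.card_univ, card_space]

lemma ru_mul_le (m n : ℕ) (hk : 1 ≤ k) : ru k p m * ru k p n ≤ ru k p (m + n) := by
  classical
  obtain ⟨A, _, hA, hAc⟩ := exists_r (k := k) (univ : Finset (Fin m → ZMod p)) hk
  obtain ⟨B, _, hB, hBc⟩ := exists_r (k := k) (univ : Finset (Fin n → ZMod p)) hk
  set e := Fin.appendEquiv (α := ZMod p) m n with he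
  have hfree : APFree k ((A ×ˢ B).map e.toEmbedding) := by
    intro x y hcon
    have hmem : ∀ j < k, (fun i => x (Fin.castAdd n i)) + j • (fun i => y (Fin.castAdd n i)) ∈ A ∧
        (fun i => x (Fin.natAdd m i)) + j • (fun i => y (Fin.natAdd m i)) ∈ B := by
      intro j hj
      have := hcon j hj
      rw [Finset.mem_map] at this
      obtain ⟨⟨a, b⟩, hab, hE⟩ := this
      rw [mem_product] at hab
      have hE' : Fin.append a b = x + j • y := hE
      constructor
      · have : (fun i => x (Fin.castAdd n i)) + j • (fun i => y (Fin.castAdd n i)) = a := by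
          funext i
          have := congrFun hE' (Fin.castAdd n i)
          rw [Fin.append_left] at this
          simpa using this.symm
        rw [this]; exact hab.1
      · have : (fun i => x (Fin.natAdd m i)) + j • (fun i => y (Fin.natAdd m i)) = b := by
          funext i
          have := congrFun hE' (Fin.natAdd m i)
          rw [Fin.append_right] at this
          simpa using this.symm
        rw [this]; exact hab.2
    have hy1 := hA _ _ fun j hj => (hmem j hj).1
    have hy2 := hB _ _ fun j hj => (hmem j hj).2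
    funext i
    refine Fin.addCases (fun i => ?_) (fun i => ?_) i
    · exact congrFun hy1 i
    · exact congrFun hy2 i
  have := le_r (k := k) (F := (univ : Finset (Fin (m + n) → ZMod p))) (subset_univ _) hfree
  rw [card_map, card_product, hAc, hBc] at this
  exact this

/-- The limit exists and is an upper bound (Fekete). -/
lemma exists_lim (hk : 2 ≤ k) :
    ∃ L : ℝ, Tendsto (fun n : ℕ => Real.log (ru k p n) / n) atTop (𝓝 L) ∧
      ∀ n : ℕ, Real.log (ru k p n) ≤ n * L := by
  have hsub : Subadditive (fun n : ℕ => -Real.log (ru k p n)) := by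
    intro m n
    have h1 : (0 : ℝ) < ru k p m := by exact_mod_cast one_le_ru hk m
    have h2 : (0 : ℝ) < ru k p n := by exact_mod_cast one_le_ru hk n
    have h3 : Real.log (ru k p m * ru k p n : ℝ) ≤ Real.log (ru k p (m + n)) := by
      apply Real.log_le_log (by positivity)
      exact_mod_cast ru_mul_le m n (by omega)
    rw [Real.log_mul h1.ne' h2.ne'] at h3
    simp only
    linarith
  have hbdd : BddBelow (Set.range fun n : ℕ => -Real.log (ru k p n) / n) := by
    refine ⟨-Real.log p, ?_⟩
    rintro _ ⟨n, rfl⟩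
    have hp1 : (1 : ℝ) < p := by exact_mod_cast hp.out.one_lt
    rcases Nat.eq_zero_or_pos n with hn | hn
    · subst hn
      simp only [Nat.cast_zero, div_zero]
      have := Real.log_pos hp1
      linarith
    · have hn' : (0 : ℝ) < n := by exact_mod_cast hn
      simp only
      rw [le_div_iff₀ hn']
      have h1 : (0 : ℝ) < ru k p n := by exact_mod_cast one_le_ru hk n
      have h2 : Real.log (ru k p n) ≤ Real.log ((p : ℝ) ^ n) := by
        apply Real.log_le_log h1
        exact_mod_cast ru_le n
      rw [Real.log_pow] at h2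
      nlinarith
  refine ⟨-hsub.lim, ?_, ?_⟩
  · have := (hsub.tendsto_lim hbdd).neg
    refine this.congr ?_
    intro n
    simp [neg_div]
  · intro n
    rcases Nat.eq_zero_or_pos n with hn | hn
    · subst hn
      have h1 : ru k p 0 ≤ 1 := by simpa using ru_le (k := k) (p := p) 0
      have h2 := one_le_ru (p := p) hk 0
      have h3 : ru k p 0 = 1 := le_antisymm h1 h2
      rw [h3]
      simp
    · have hn' : (0 : ℝ) < n := by exact_mod_cast hn
      have := hsub.lim_le_div hbdd hn.ne'
      rw [le_div_iff₀ hn'] at this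
      linarith

lemma rpow_of_log {x : ℕ → ℝ} {a : ℝ} (hx : ∀ᶠ n in atTop, 0 < x n)
    (h : Tendsto (fun n : ℕ => Real.log (x n) / n) atTop (𝓝 a)) :
    Tendsto (fun n : ℕ => x n ^ (1 / (n : ℝ))) atTop (𝓝 (Real.exp a)) := by
  refine ((Real.continuous_exp.tendsto a).comp h).congr' ?_
  filter_upwards [hx] with n hn
  rw [Function.comp_apply, Real.rpow_def_of_pos hn]
  congr 1
  ring

lemma log_of_rpow {x : ℕ → ℝ} {a : ℝ} (hx0 : ∀ n, 0 ≤ x n) (ha : 0 < a)
    (h : Tendsto (fun n : ℕ => x n ^ (1 / (n : ℝ))) atTop (𝓝 a)) :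
    (∀ᶠ n in atTop, 0 < x n) ∧ Tendsto (fun n : ℕ => Real.log (x n) / n) atTop (𝓝 (Real.log a)) := by
  have h1 : ∀ᶠ n : ℕ in atTop, 0 < x n := by
    filter_upwards [h.eventually (lt_mem_nhds ha), eventually_gt_atTop 0] with n hn hn0
    rcases (hx0 n).lt_or_eq with h2 | h2
    · exact h2
    · exfalso
      rw [← h2, Real.zero_rpow] at hn
      · exact lt_irrefl _ hn
      · have : (0 : ℝ) < n := by exact_mod_cast hn0
        positivity
  refine ⟨h1, ((Real.continuousAt_log ha.ne').tendsto.comp h).congr' ?_⟩
  filter_upwards [h1] with n hn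
  rw [Function.comp_apply, Real.log_rpow hn]
  ring

lemma log_mul_div_tendsto (C : ℝ) (hC : 0 ≤ C) :
    Tendsto (fun n : ℕ => Real.log ((n : ℝ) * C + 1) / n) atTop (𝓝 0) := by
  have h0 : Tendsto (fun x : ℝ => Real.log x / x) atTop (𝓝 0) := by
    have := Real.isLittleO_log_id_atTop.tendsto_div_nhds_zero
    simpa using this
  have h1 : Tendsto (fun n : ℕ => Real.log ((n : ℝ)) / n) atTop (𝓝 0) :=
    h0.comp tendsto_natCast_atTop_atTop
  have h2 : Tendsto (fun n : ℕ => Real.log (C + 1) / (n : ℝ)) atTop (𝓝 0) :=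
    tendsto_const_nhds.div_atTop tendsto_natCast_atTop_atTop
  have h3 := h1.add h2
  rw [add_zero] at h3
  refine tendsto_of_tendsto_of_tendsto_of_le_of_le' tendsto_const_nhds h3 ?_ ?_
  · filter_upwards [eventually_gt_atTop 0] with n hn
    have hn' : (0 : ℝ) < n := by exact_mod_cast hn
    apply div_nonneg _ hn'.le
    apply Real.log_nonneg
    have : 0 ≤ (n : ℝ) * C := by positivity
    linarith
  · filter_upwards [eventually_gt_atTop 0] with n hn
    have hn' : (0 : ℝ) < n := by exact_mod_cast hn
    have hn1 : (1 : ℝ) ≤ n := by exact_mod_cast hn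
    rw [← add_div]
    apply div_le_div_of_nonneg_right _ hn'.le
    rw [← Real.log_mul hn'.ne' (by positivity)]
    apply Real.log_le_log (by positivity)
    nlinarith

/-- `log c / n` for the least number of colours of `F_p^n` -/
lemma cu_lim (hk : 2 ≤ k) {L : ℝ}
    (hL : Tendsto (fun n : ℕ => Real.log (ru k p n) / n) atTop (𝓝 L)) :
    Tendsto (fun n : ℕ => Real.log (cu k p n) / n) atTop (𝓝 (Real.log p - L)) := by
  have hlp : 0 ≤ Real.log p := Real.log_nonneg (by exact_mod_cast hp.out.one_le)
  have hp0 : (0 : ℝ) < p := by exact_mod_cast hp.out.pos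
  have h1 : Tendsto (fun n : ℕ => Real.log p - Real.log (ru k p n) / n) atTop
      (𝓝 (Real.log p - L)) := tendsto_const_nhds.sub hL
  have h2 : Tendsto (fun n : ℕ => Real.log p - Real.log (ru k p n) / n +
      Real.log ((n : ℝ) * Real.log p + 1) / n) atTop (𝓝 (Real.log p - L)) := by
    have := h1.add (log_mul_div_tendsto (Real.log p) hlp)
    rwa [add_zero] at this
  refine tendsto_of_tendsto_of_tendsto_of_le_of_le' h1 h2 ?_ ?_
  · filter_upwards [eventually_gt_atTop 0] with n hn
    have hn' : (0 : ℝ) < n := by exact_mod_cast hn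
    have hr : (0 : ℝ) < ru k p n := by exact_mod_cast one_le_ru hk n
    have h3 : ((p : ℝ) ^ n) ≤ cu k p n * ru k p n := by
      have := le_chi_mul hk (univ : Finset (Fin n → ZMod p))
      rw [Finset.card_univ, card_space] at this
      exact_mod_cast this
    have hc : (0 : ℝ) < cu k p n := by
      by_contra h
      have : (cu k p n : ℝ) = 0 := le_antisymm (not_lt.1 h) (Nat.cast_nonneg _)
      rw [this, zero_mul] at h3
      have : (0 : ℝ) < (p : ℝ) ^ n := by positivity
      linarith
    have h4 := Real.log_le_log (by positivity) h3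
    rw [Real.log_pow, Real.log_mul hc.ne' hr.ne'] at h4
    rw [sub_le_iff_le_add, ← add_div, le_div_iff₀ hn']
    linarith
  · filter_upwards [eventually_gt_atTop 0] with n hn
    have hn' : (0 : ℝ) < n := by exact_mod_cast hn
    have hr : (0 : ℝ) < ru k p n := by exact_mod_cast one_le_ru hk n
    have h3 := chi_upper (k := k) (p := p) (n := n) hk
    have hq : (1 : ℝ) ≤ (p : ℝ) ^ n / ru k p n := by
      rw [one_le_div hr]
      exact_mod_cast ru_le n
    have h4 : (cu k p n : ℝ) ≤ (p : ℝ) ^ n / ru k p n * ((n : ℝ) * Real.log p + 1) := by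
      refine h3.trans ?_
      have : 0 ≤ (n : ℝ) * Real.log p := by positivity
      nlinarith
    have hc : (0 : ℝ) < cu k p n := by
      have h5 := le_chi_mul hk (univ : Finset (Fin n → ZMod p))
      rw [Finset.card_univ, card_space] at h5
      have h6 : 0 < p ^ n := Nat.pow_pos hp.out.pos
      have : 0 < cu k p n := by
        by_contra h
        have h7 : chi k (univ : Finset (Fin n → ZMod p)) = 0 := by
          have : cu k p n = 0 := by omega
          exact this
        rw [h7] at h5
        omega
      exact_mod_cast this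
    have h5 := Real.log_le_log hc h4
    have hpos : (0 : ℝ) < (n : ℝ) * Real.log p + 1 := by positivity
    rw [Real.log_mul (by positivity) hpos.ne', Real.log_div (by positivity) hr.ne',
      Real.log_pow] at h5
    rw [div_le_iff₀ hn']
    have e : (Real.log p - Real.log (ru k p n) / n +
        Real.log ((n : ℝ) * Real.log p + 1) / n) * n =
        n * Real.log p - Real.log (ru k p n) + Real.log ((n : ℝ) * Real.log p + 1) := by
      field_simp
    rw [e]
    exact h5

/-- families of sets of subexponential codensity -/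
lemma family_lim (hk : 2 ≤ k) {L : ℝ}
    (hL : Tendsto (fun n : ℕ => Real.log (ru k p n) / n) atTop (𝓝 L))
    (F : ∀ n : ℕ, Finset (Fin n → ZMod p)) (hpos : ∀ᶠ n : ℕ in atTop, (0 : ℝ) < (F n).card)
    (hF : Tendsto (fun n : ℕ => Real.log (F n).card / n) atTop (𝓝 (Real.log p))) :
    (∀ᶠ n : ℕ in atTop, (0 : ℝ) < r k (F n)) ∧ (∀ᶠ n : ℕ in atTop, (0 : ℝ) < chi k (F n)) ∧
    Tendsto (fun n : ℕ => Real.log (r k (F n)) / n) atTop (𝓝 L) ∧
    Tendsto (fun n : ℕ => Real.log (chi k (F n)) / n) atTop (𝓝 (Real.log p - L)) := by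
  have hp0 : (0 : ℝ) < p := by exact_mod_cast hp.out.pos
  have hrpos : ∀ᶠ n : ℕ in atTop, (0 : ℝ) < r k (F n) := by
    filter_upwards [hpos] with n hn
    have h1 : 0 < (F n).card := by exact_mod_cast hn
    exact_mod_cast one_le_r (Finset.card_pos.1 h1) hk
  have hcpos : ∀ᶠ n : ℕ in atTop, (0 : ℝ) < chi k (F n) := by
    filter_upwards [hpos] with n hn
    have h1 : 0 < (F n).card := by exact_mod_cast hn
    have h2 := le_chi_mul hk (F n)
    have : 0 < chi k (F n) := by
      rcases Nat.eq_zero_or_pos (chi k (F n)) with h | h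
      · rw [h] at h2; omega
      · exact h
    exact_mod_cast this
  refine ⟨hrpos, hcpos, ?_, ?_⟩
  · have h1 : Tendsto (fun n : ℕ => Real.log (F n).card / n + Real.log (ru k p n) / n - Real.log p)
        atTop (𝓝 L) := by
      have := (hF.add hL).sub_const (Real.log p)
      rwa [add_sub_cancel_left] at this
    refine tendsto_of_tendsto_of_tendsto_of_le_of_le' h1 hL ?_ ?_
    · filter_upwards [hpos, hrpos, eventually_gt_atTop 0] with n hn hrn hn0
      have hn' : (0 : ℝ) < n := by exact_mod_cast hn0
      have hr : (0 : ℝ) < ru k p n := by exact_mod_cast one_le_ru hk n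
      have h3 : ((F n).card : ℝ) * ru k p n ≤ (p : ℝ) ^ n * r k (F n) := by
        exact_mod_cast dense (F n) (by omega)
      have h4 := Real.log_le_log (by positivity) h3
      rw [Real.log_mul hn.ne' hr.ne', Real.log_mul (by positivity) hrn.ne', Real.log_pow] at h4
      rw [sub_le_iff_le_add, ← add_div, div_le_iff₀ hn']
      have e : (Real.log (r k (F n)) / n + Real.log p) * n =
          Real.log (r k (F n)) + n * Real.log p := by field_simp
      rw [e]
      linarith
    · filter_upwards [hrpos] with n hrn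
      refine div_le_div_of_nonneg_right ?_ (Nat.cast_nonneg n)
      refine Real.log_le_log hrn ?_
      exact_mod_cast r_mono (subset_univ (F n)) (by omega)
  · have h1 : Tendsto (fun n : ℕ => Real.log (F n).card / n - Real.log (ru k p n) / n)
        atTop (𝓝 (Real.log p - L)) := hF.sub hL
    refine tendsto_of_tendsto_of_tendsto_of_le_of_le' h1 (cu_lim hk hL) ?_ ?_
    · filter_upwards [hpos, hcpos] with n hn hcn
      have hr : (0 : ℝ) < ru k p n := by exact_mod_cast one_le_ru hk n
      have h3 : ((F n).card : ℝ) ≤ chi k (F n) * ru k p n := by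
        have h4 := (le_chi_mul hk (F n)).trans
          (Nat.mul_le_mul_left _ (r_mono (subset_univ (F n)) (by omega : 1 ≤ k)))
        exact_mod_cast h4
      have h4 := Real.log_le_log hn h3
      rw [Real.log_mul hcn.ne' hr.ne'] at h4
      rw [← sub_div]
      refine div_le_div_of_nonneg_right ?_ (Nat.cast_nonneg n)
      linarith
    · filter_upwards [hcpos] with n hcn
      refine div_le_div_of_nonneg_right ?_ (Nat.cast_nonneg n)
      refine Real.log_le_log hcn ?_
      exact_mod_cast chi_subset hk (subset_univ (F n))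

/-! ### Ramsey numbers -/

/-- Hales-Jewett -/
lemma exists_not_colourable (k p : ℕ) [Fact p.Prime] (c : ℕ) :
    ∃ n : ℕ, ¬ Colourable k (univ : Finset (Fin n → ZMod p)) c := by
  classical
  obtain ⟨ι, hι, hHJ⟩ := Combinatorics.Line.exists_mono_in_high_dimension (ZMod p) (Fin c)
  refine ⟨Fintype.card ι, ?_⟩
  rintro ⟨f, hf⟩
  set e := Fintype.equivFin ι with he
  obtain ⟨l, a, hl⟩ := hHJ fun v => f fun i => v (e.symm i)
  set x : Fin (Fintype.card ι) → ZMod p := fun i => l 0 (e.symm i) with hx
  set y : Fin (Fintype.card ι) → ZMod p := fun i =>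
    if l.idxFun (e.symm i) = none then 1 else 0 with hy
  have hline : ∀ j : ℕ, x + j • y = fun i => l (j : ZMod p) (e.symm i) := by
    intro j
    funext i
    simp only [hx, hy, Pi.add_apply, Pi.smul_apply]
    by_cases h : l.idxFun (e.symm i) = none
    · rw [if_pos h, l.apply_none _ _ h, l.apply_none _ _ h]
      simp
    · rw [if_neg h, smul_zero, add_zero]
      obtain ⟨b, hb⟩ := Option.ne_none_iff_exists'.1 h
      rw [l.apply_some hb, l.apply_some hb]
  have hy0 : y ≠ 0 := by
    obtain ⟨i, hi⟩ := l.proper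
    intro h0
    have := congrFun h0 (e i)
    simp [hy, hi] at this
  obtain ⟨i, j, _, _, hij⟩ := hf x y hy0 fun _ _ => mem_univ _
  apply hij
  rw [hline, hline]
  exact (hl _).trans (hl _).symm

lemma ram_spec (c : ℕ) : ¬ Colourable k (univ : Finset (Fin (ram k p c) → ZMod p)) c :=
  Nat.sInf_mem (s := {n : ℕ | ¬ Colourable k (univ : Finset (Fin n → ZMod p)) c})
    (exists_not_colourable k p c)

lemma lt_ram {n c : ℕ} (h : n < ram k p c) : Colourable k (univ : Finset (Fin n → ZMod p)) c := by
  have := Nat.notMem_of_lt_sInf h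
  simpa using this

lemma ram_tendsto (hk : 2 ≤ k) : Tendsto (ram k p) atTop atTop := by
  rw [tendsto_atTop]
  intro b
  filter_upwards [eventually_ge_atTop (p ^ b)] with c hc
  by_contra hlt
  push Not at hlt
  apply ram_spec (k := k) (p := p) c
  exact colourable_mono ((Nat.pow_le_pow_right hp.out.pos hlt.le).trans hc) (colourable_card hk _)

lemma ram_lim (hk : 2 ≤ k) {M : ℝ}
    (hM : Tendsto (fun n : ℕ => Real.log (cu k p n) / n) atTop (𝓝 M)) :
    Tendsto (fun c : ℕ => Real.log c / ram k p c) atTop (𝓝 M) := by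
  have hcpos : ∀ n, (0 : ℝ) < cu k p n := by
    intro n
    have h5 := le_chi_mul hk (univ : Finset (Fin n → ZMod p))
    rw [Finset.card_univ, card_space] at h5
    have h6 : 0 < p ^ n := Nat.pow_pos hp.out.pos
    have : 0 < chi k (univ : Finset (Fin n → ZMod p)) := by
      rcases Nat.eq_zero_or_pos (chi k (univ : Finset (Fin n → ZMod p))) with h | h
      · rw [h] at h5; omega
      · exact h
    exact_mod_cast this
  have hlow : Tendsto (fun n : ℕ => Real.log (cu k p (n - 1)) / n) atTop (𝓝 M) := by
    rw [← tendsto_add_atTop_iff_nat 1]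
    have h1 : Tendsto (fun n : ℕ => (n : ℝ) / ((n : ℝ) + 1)) atTop (𝓝 1) :=
      tendsto_natCast_div_add_atTop 1
    have h2 := hM.mul h1
    rw [mul_one] at h2
    refine h2.congr' ?_
    filter_upwards [eventually_gt_atTop 0] with n hn
    have hn' : (0 : ℝ) < n := by exact_mod_cast hn
    rw [Nat.add_sub_cancel]
    push_cast
    field_simp
  have hr := ram_tendsto (k := k) (p := p) hk
  refine tendsto_of_tendsto_of_tendsto_of_le_of_le' (hlow.comp hr) (hM.comp hr) ?_ ?_
  · filter_upwards [hr.eventually (eventually_gt_atTop 0)] with c hc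
    have h1 : Colourable k (univ : Finset (Fin (ram k p c - 1) → ZMod p)) c := lt_ram (by omega)
    have h2 : (cu k p (ram k p c - 1) : ℝ) ≤ c := by exact_mod_cast chi_le h1
    rw [Function.comp_apply]
    exact div_le_div_of_nonneg_right (Real.log_le_log (hcpos _) h2) (Nat.cast_nonneg _)
  · filter_upwards [eventually_gt_atTop 0] with c hc
    have h1 := lt_chi hk (ram_spec (k := k) (p := p) c)
    have h2 : (c : ℝ) ≤ cu k p (ram k p c) := by exact_mod_cast h1.le
    rw [Function.comp_apply]
    exact div_le_div_of_nonneg_right (Real.log_le_log (by exact_mod_cast hc) h2) (Nat.cast_nonneg _)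

/-- upper bound for all Ramsey numbers -/
lemma ram_le (hk : 2 ≤ k) {L : ℝ} (hL : ∀ n : ℕ, Real.log (ru k p n) ≤ n * L) {c : ℕ}
    (hc : 1 ≤ c) : ((ram k p c : ℝ) - 1) * (Real.log p - L) ≤ Real.log c := by
  have hp0 : (0 : ℝ) < p := by exact_mod_cast hp.out.pos
  have h0 : 0 < ram k p c := by
    rcases Nat.eq_zero_or_pos (ram k p c) with h | h
    · exfalso
      have h1 := ram_spec (k := k) (p := p) c
      rw [h] at h1
      exact h1 (colourable_mono (by simpa using hc) (colourable_card (n := 0) hk _))
    · exact h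
  have h1 : Colourable k (univ : Finset (Fin (ram k p c - 1) → ZMod p)) c := lt_ram (by omega)
  have h2 := card_le_of_colourable h1
  rw [Finset.card_univ, card_space] at h2
  set m := ram k p c - 1 with hm
  have hr : (0 : ℝ) < ru k p m := by exact_mod_cast one_le_ru hk m
  have hc' : (0 : ℝ) < c := by exact_mod_cast hc
  have h3 : ((p : ℝ) ^ m) ≤ c * ru k p m := by exact_mod_cast h2
  have h4 := Real.log_le_log (by positivity) h3
  rw [Real.log_pow, Real.log_mul hc'.ne' hr.ne'] at h4
  have h5 := hL m
  have h6 : (ram k p c : ℝ) - 1 = m := by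
    rw [hm, Nat.cast_sub (by omega)]
    simp
  rw [h6]
  nlinarith

lemma ram_bigO (hk : 2 ≤ k) {M : ℝ}
    (hlim : Tendsto (fun c : ℕ => Real.log c / ram k p c) atTop (𝓝 M)) :
    ((fun c : ℕ => (ram k p c : ℝ)) =O[atTop] fun c : ℕ => Real.log c) ↔ 0 < M := by
  have hr := ram_tendsto (k := k) (p := p) hk
  constructor
  · intro h
    obtain ⟨C, hC, hb⟩ := h.exists_pos
    rw [Asymptotics.isBigOWith_iff] at hb
    have h1 : ∀ᶠ c : ℕ in atTop, C⁻¹ ≤ Real.log c / ram k p c := by
      filter_upwards [hb, hr.eventually (eventually_gt_atTop 0), eventually_gt_atTop 1]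
        with c h2 h3 h4
      have h5 : (0 : ℝ) < ram k p c := by exact_mod_cast h3
      have h6 : 0 < Real.log c := Real.log_pos (by exact_mod_cast h4)
      rw [Real.norm_of_nonneg h5.le, Real.norm_of_nonneg h6.le] at h2
      rw [le_div_iff₀ h5, inv_mul_le_iff₀ hC]
      exact h2
    exact lt_of_lt_of_le (inv_pos.2 hC) (ge_of_tendsto hlim h1)
  · intro hM0
    refine Asymptotics.IsBigO.of_bound (2 / M) ?_
    filter_upwards [hlim.eventually (lt_mem_nhds (show M / 2 < M by linarith)),
      hr.eventually (eventually_gt_atTop 0), eventually_gt_atTop 1] with c h2 h3 h4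
    have h5 : (0 : ℝ) < ram k p c := by exact_mod_cast h3
    have h6 : 0 < Real.log c := Real.log_pos (by exact_mod_cast h4)
    rw [Real.norm_of_nonneg h5.le, Real.norm_of_nonneg h6.le]
    rw [lt_div_iff₀ h5] at h2
    rw [div_mul_eq_mul_div, le_div_iff₀ hM0]
    linarith

end Pool.Agent.KS6_70.RC
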