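import Pool.Agent.KS6_70.RC.Limit

/-!
Progression-free subsets and colourings of arbitrary finite sets in vector spaces over `F_p`,
by random linear maps.
-/

set_option autoImplicit false
set_option linter.unusedSectionVars false

namespace Pool.Agent.KS6_70.RC

open Finset Filter Topology

variable {k p : ℕ} [hp : Fact p.Prime]

section proj

variable {m n : ℕ}

/-- matrices with a given nonzero vector in the kernel -/
lemma card_kernel (y : Fin n → ZMod p) (hy : y ≠ 0) :
    p ^ m * (univ.filter fun M : Matrix (Fin m) (Fin n) (ZMod p) => M.mulVec y = 0).card =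
      Fintype.card (Matrix (Fin m) (Fin n) (ZMod p)) := by
  classical
  set φ : Matrix (Fin m) (Fin n) (ZMod p) →+ (Fin m → ZMod p) :=
    { toFun := fun M => M.mulVec y
      map_zero' := Matrix.zero_mulVec y
      map_add' := fun M N => Matrix.add_mulVec M N y } with hφ
  have hsurj : Function.Surjective φ := by
    intro v
    obtain ⟨j, hj⟩ := Function.ne_iff.1 hy
    refine ⟨fun i l => if l = j then v i / y j else 0, ?_⟩
    funext i
    change ∑ l, (if l = j then v i / y j else 0) * y l = v i
    rw [Finset.sum_eq_single j]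
    · rw [if_pos rfl]
      exact div_mul_cancel₀ _ hj
    · intro l _ hl
      rw [if_neg hl, zero_mul]
    · intro h
      exact absurd (mem_univ j) h
  have h1 : ∀ v : Fin m → ZMod p,
      (univ.filter fun M : Matrix (Fin m) (Fin n) (ZMod p) => φ M = v).card =
        (univ.filter fun M : Matrix (Fin m) (Fin n) (ZMod p) => φ M = 0).card := fun v =>
    AddMonoidHom.card_fiber_eq_of_mem_range φ (hsurj v) (hsurj 0)
  have h2 : Fintype.card (Matrix (Fin m) (Fin n) (ZMod p)) =
      ∑ v : Fin m → ZMod p,
        (univ.filter fun M : Matrix (Fin m) (Fin n) (ZMod p) => φ M = v).card := by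
    rw [← Finset.card_univ]
    exact Finset.card_eq_sum_card_fiberwise fun _ _ => mem_univ _
  rw [h2, Finset.sum_congr rfl fun v _ => h1 v, Finset.sum_const, Finset.card_univ, card_space,
    smul_eq_mul]
  rfl

/-- some matrix identifies few pairs of `F` -/
lemma exists_matrix (F : Finset (Fin n → ZMod p)) (m : ℕ) :
    ∃ M : Matrix (Fin m) (Fin n) (ZMod p),
      p ^ m * (F.offDiag.filter fun q => M.mulVec q.1 = M.mulVec q.2).card ≤ F.offDiag.card := by
  classical
  by_contra h
  push Not at h
  have h1 : ∑ _M : Matrix (Fin m) (Fin n) (ZMod p), F.offDiag.card <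
      ∑ M : Matrix (Fin m) (Fin n) (ZMod p),
        p ^ m * (F.offDiag.filter fun q => M.mulVec q.1 = M.mulVec q.2).card :=
    Finset.sum_lt_sum_of_nonempty ⟨0, mem_univ _⟩ fun M _ => h M
  rw [← Finset.mul_sum, Finset.sum_const, Finset.card_univ, smul_eq_mul] at h1
  have h2 : ∑ M : Matrix (Fin m) (Fin n) (ZMod p),
      (F.offDiag.filter fun q => M.mulVec q.1 = M.mulVec q.2).card =
      ∑ q ∈ F.offDiag, (univ.filter fun M : Matrix (Fin m) (Fin n) (ZMod p) =>
        M.mulVec (q.1 - q.2) = 0).card := by
    simp_rw [Finset.card_filter]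
    rw [Finset.sum_comm]
    refine Finset.sum_congr rfl fun q _ => Finset.sum_congr rfl fun M _ => ?_
    have : (M.mulVec q.1 = M.mulVec q.2) ↔ M.mulVec (q.1 - q.2) = 0 := by
      rw [Matrix.mulVec_sub, sub_eq_zero]
    by_cases h : M.mulVec q.1 = M.mulVec q.2
    · rw [if_pos h, if_pos (this.1 h)]
    · rw [if_neg h, if_neg fun h' => h (this.2 h')]
  rw [h2, Finset.mul_sum] at h1
  have h3 : ∀ q ∈ F.offDiag, p ^ m * (univ.filter fun M : Matrix (Fin m) (Fin n) (ZMod p) =>
        M.mulVec (q.1 - q.2) = 0).card = Fintype.card (Matrix (Fin m) (Fin n) (ZMod p)) := by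
    intro q hq
    refine card_kernel _ ?_
    rw [sub_ne_zero]
    exact (Finset.mem_offDiag.1 hq).2.2
  rw [Finset.sum_congr rfl h3, Finset.sum_const, smul_eq_mul, mul_comm] at h1
  exact lt_irrefl _ h1

/-- half of the points of `F` are separated from the other points of `F` by a linear map -/
lemma exists_good (F : Finset (Fin n → ZMod p)) (hF : 2 * F.card ≤ p ^ m) :
    ∃ (M : Matrix (Fin m) (Fin n) (ZMod p)) (G : Finset (Fin n → ZMod p)), G ⊆ F ∧
      F.card ≤ 2 * G.card ∧ ∀ x ∈ G, ∀ x' ∈ F, M.mulVec x' = M.mulVec x → x' = x := by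
  classical
  obtain ⟨M, hM⟩ := exists_matrix F m
  set P := F.offDiag.filter fun q => M.mulVec q.1 = M.mulVec q.2 with hP
  set B := P.image Prod.fst with hB
  refine ⟨M, F \ B, Finset.sdiff_subset, ?_, ?_⟩
  · have h1 : B.card ≤ P.card := Finset.card_image_le
    have h2 : F.card ≤ (F \ B).card + B.card := by
      have := Finset.le_card_sdiff B F
      omega
    have h3 : 2 * P.card ≤ F.card := by
      rw [Finset.offDiag_card] at hM
      have h4 : 2 * F.card * P.card ≤ F.card * F.card :=
        (Nat.mul_le_mul_right _ hF).trans (hM.trans (Nat.sub_le _ _))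
      rcases Nat.eq_zero_or_pos F.card with h0 | h0
      · have : P = ∅ := by
          rw [hP, Finset.card_eq_zero.1 h0]
          simp
        rw [this]; simp
      · have h5 : F.card * (2 * P.card) ≤ F.card * F.card := by
          calc F.card * (2 * P.card) = 2 * F.card * P.card := by ring
            _ ≤ _ := h4
        exact Nat.le_of_mul_le_mul_left h5 h0
    omega
  · intro x hx x' hx' he
    by_contra hne
    rw [Finset.mem_sdiff] at hx
    apply hx.2
    rw [hB, Finset.mem_image]
    refine ⟨(x, x'), ?_, rfl⟩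
    rw [hP, Finset.mem_filter, Finset.mem_offDiag]
    exact ⟨⟨hx.1, hx', fun h => hne h.symm⟩, he.symm⟩

lemma mulVec_ap (M : Matrix (Fin m) (Fin n) (ZMod p)) (x y : Fin n → ZMod p) (i : ℕ) :
    M.mulVec (x + i • y) = M.mulVec x + i • M.mulVec y := by
  rw [Matrix.mulVec_add, Matrix.mulVec_smul]

/-- every finite set has large progression-free subsets -/
lemma universal (hk : 2 ≤ k) (F : Finset (Fin n → ZMod p)) (hF : 2 * F.card ≤ p ^ m) :
    F.card * ru k p m ≤ 2 * p ^ m * r k F := by
  classical
  obtain ⟨M, G, hGF, hG, hsep⟩ := exists_good F hF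
  have hinj : Set.InjOn (fun x => M.mulVec x) (G : Set (Fin n → ZMod p)) := by
    intro x hx x' hx' h
    exact hsep x' hx' x (hGF hx) h
  set H := G.image fun x => M.mulVec x with hH
  have hHc : H.card = G.card := Finset.card_image_of_injOn hinj
  obtain ⟨A, hAH, hA, hAc⟩ := exists_r (k := k) H (by omega)
  set B := G.filter fun x => M.mulVec x ∈ A with hB
  have hBc : B.card = A.card := by
    have : A = B.image fun x => M.mulVec x := by
      ext v
      rw [Finset.mem_image]
      constructor
      · intro hv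
        obtain ⟨x, hx, hxv⟩ := Finset.mem_image.1 (hAH hv)
        exact ⟨x, Finset.mem_filter.2 ⟨hx, by simpa only [hxv] using hv⟩, hxv⟩
      · rintro ⟨x, hx, rfl⟩
        exact (Finset.mem_filter.1 hx).2
    rw [this]
    exact (Finset.card_image_of_injOn (hinj.mono fun x hx => (Finset.mem_filter.1 hx).1)).symm
  have hBfree : APFree k B := by
    intro x y hxy
    have h1 : M.mulVec y = 0 := by
      refine hA (M.mulVec x) _ fun i hi => ?_
      rw [← mulVec_ap]
      exact (Finset.mem_filter.1 (hxy i hi)).2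
    have h2 := (Finset.mem_filter.1 (hxy 0 (by omega))).1
    have h3 := (Finset.mem_filter.1 (hxy 1 (by omega))).1
    have h4 : x + 1 • y = x + 0 • y := by
      refine hsep _ h2 _ (hGF h3) ?_
      rw [mulVec_ap, mulVec_ap, h1]
      simp
    simpa using h4
  have h1 : r k H ≤ r k F := by
    rw [← hAc, ← hBc]
    exact le_r ((Finset.filter_subset _ _).trans hGF) hBfree
  have h2 := dense (k := k) H (by omega)
  calc F.card * ru k p m ≤ 2 * G.card * ru k p m := Nat.mul_le_mul_right _ hG
    _ = 2 * (H.card * ru k p m) := by rw [hHc]; ring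
    _ ≤ 2 * (p ^ m * r k H) := Nat.mul_le_mul_left _ h2
    _ ≤ 2 * (p ^ m * r k F) := Nat.mul_le_mul_left _ (Nat.mul_le_mul_left _ h1)
    _ = _ := by ring

/-! ### colourings -/

lemma colour_union {F F' : Finset (Fin n → ZMod p)} {c c' : ℕ} (h : Colourable k F c)
    (h' : Colourable k F' c') : Colourable k (F ∪ F') (c + c') := by
  classical
  obtain ⟨f, hf⟩ := h
  obtain ⟨g, hg⟩ := h'
  refine ⟨fun x => if x ∈ F then Fin.castAdd c' (f x) else Fin.natAdd c (g x), ?_⟩
  intro x y hy hxy
  by_contra hcon
  push Not at hcon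
  by_cases h0 : ∀ i < k, x + i • y ∈ F
  · obtain ⟨i, j, hi, hj, hij⟩ := hf x y hy h0
    apply hij
    have := hcon i j hi hj
    simp only [h0 i hi, h0 j hj, if_true] at this
    exact Fin.castAdd_injective _ _ this
  · push Not at h0
    obtain ⟨a, ha, haF⟩ := h0
    have h1 : ∀ i < k, x + i • y ∉ F := by
      intro i hi hiF
      have := hcon i a hi ha
      simp only [hiF, haF, if_true, if_false] at this
      have h2 := congrArg Fin.val this
      simp only [Fin.val_castAdd, Fin.val_natAdd] at h2
      have := (f (x + i • y)).2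
      omega
    obtain ⟨i, j, hi, hj, hij⟩ := hg x y hy fun i hi =>
      (Finset.mem_union.1 (hxy i hi)).resolve_left (h1 i hi)
    apply hij
    have := hcon i j hi hj
    simp only [h1 i hi, h1 j hj, if_false] at this
    exact Fin.natAdd_injective _ _ this

lemma colour_good (hk : 2 ≤ k) {F G : Finset (Fin n → ZMod p)}
    (M : Matrix (Fin m) (Fin n) (ZMod p)) (hGF : G ⊆ F)
    (hsep : ∀ x ∈ G, ∀ x' ∈ F, M.mulVec x' = M.mulVec x → x' = x) :
    Colourable k G (cu k p m) := by
  obtain ⟨f, hf⟩ := chi_spec hk (univ : Finset (Fin m → ZMod p))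
  refine ⟨fun x => f (M.mulVec x), fun x y hy hxy => ?_⟩
  have h1 : M.mulVec y ≠ 0 := by
    intro h1
    apply hy
    have h4 : x + 1 • y = x + 0 • y := by
      refine hsep _ (hxy 0 (by omega)) _ (hGF (hxy 1 (by omega))) ?_
      rw [mulVec_ap, mulVec_ap, h1]
      simp
    simpa using h4
  obtain ⟨i, j, hi, hj, hij⟩ := hf (M.mulVec x) (M.mulVec y) h1 fun _ _ => mem_univ _
  refine ⟨i, j, hi, hj, ?_⟩
  simpa only [mulVec_ap] using hij

lemma colour_log (hk : 2 ≤ k) (t : ℕ) : ∀ F : Finset (Fin n → ZMod p), F.card < 2 ^ t →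
    2 * F.card ≤ p ^ m → Colourable k F (t * cu k p m + 1) := by
  classical
  induction t with
  | zero =>
    intro F hF _
    have : F = ∅ := by
      rw [← Finset.card_eq_zero]; omega
    subst this
    refine ⟨fun _ => ⟨0, by omega⟩, fun x y _ hxy => ?_⟩
    have := hxy 0 (by omega)
    simp at this
  | succ t ih =>
    intro F hF hFm
    obtain ⟨M, G, hGF, hG, hsep⟩ := exists_good F hFm
    have h1 := colour_good hk M hGF hsep
    have h2 : (F \ G).card = F.card - G.card := Finset.card_sdiff_of_subset hGF
    have h3 := Finset.card_le_card hGF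
    have h4 := ih (F \ G) (by rw [h2]; rw [pow_succ] at hF; omega) (by rw [h2]; omega)
    have h5 := colour_union h1 h4
    rw [Finset.union_sdiff_of_subset hGF] at h5
    refine colourable_mono ?_ h5
    rw [add_mul, one_mul]
    omega

end proj

end Pool.Agent.KS6_70.RC
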