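import Pool.Agent.KS6_70.RC.Univ

/-!
The exponents of the least `r_k(F)` and of the largest number of colours over all sets `F` with
`N` points in vector spaces over `F_p`.
-/

set_option autoImplicit false
set_option linter.unusedSectionVars false

namespace Pool.Agent.KS6_70.RC

open Finset Filter Topology

/-- the least `r_k(F)` over all sets `F` with `N` points in the spaces `F_p^n`, `n` arbitrary -/
noncomputable def rmin (k p N : ℕ) : ℕ :=
  sInf {m : ℕ | ∃ (n : ℕ) (F : Finset (Fin n → ZMod p)), F.card = N ∧ r k F = m}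

/-- the least number `c` of colours such that every set `F` with `N` points in a space `F_p^n`,
`n` arbitrary, has a colouring with `c` colours without monochromatic progressions in `F` -/
noncomputable def cmax (k p N : ℕ) : ℕ :=
  sInf {c : ℕ | ∀ (n : ℕ) (F : Finset (Fin n → ZMod p)), F.card = N → Colourable k F c}

variable {k p : ℕ} [hp : Fact p.Prime]

lemma exists_set {N m : ℕ} (h : N ≤ p ^ m) : ∃ F : Finset (Fin m → ZMod p), F.card = N := by
  obtain ⟨F, _, hF⟩ := Finset.exists_subset_card_eq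
    (s := (univ : Finset (Fin m → ZMod p))) (n := N) (by rwa [Finset.card_univ, card_space])
  exact ⟨F, hF⟩

lemma rmin_spec (N : ℕ) : ∃ (n : ℕ) (F : Finset (Fin n → ZMod p)), F.card = N ∧
    r k F = rmin k p N := by
  refine Nat.sInf_mem
    (s := {m : ℕ | ∃ (n : ℕ) (F : Finset (Fin n → ZMod p)), F.card = N ∧ r k F = m}) ?_
  obtain ⟨F, hF⟩ := exists_set (p := p) (N := N) (m := N)
    (Nat.lt_pow_self hp.out.one_lt).le
  exact ⟨_, N, F, hF, rfl⟩

lemma rmin_le_r {n : ℕ} (F : Finset (Fin n → ZMod p)) : rmin k p F.card ≤ r k F :=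
  Nat.sInf_le ⟨n, F, rfl, rfl⟩

lemma rmin_le (hk : 2 ≤ k) {N m : ℕ} (h : N ≤ p ^ m) : rmin k p N ≤ ru k p m := by
  obtain ⟨F, rfl⟩ := exists_set (p := p) h
  exact (rmin_le_r F).trans (r_mono (subset_univ F) (by omega))

lemma le_rmin (hk : 2 ≤ k) {N m : ℕ} (h : 2 * N ≤ p ^ m) :
    N * ru k p m ≤ 2 * p ^ m * rmin k p N := by
  obtain ⟨n, F, rfl, hr⟩ := rmin_spec (k := k) (p := p) N
  rw [← hr]
  exact universal hk F h

lemma cmax_nonempty (hk : 2 ≤ k) {N m t : ℕ} (ht : N < 2 ^ t) (h : 2 * N ≤ p ^ m) :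
    t * cu k p m + 1 ∈
      {c : ℕ | ∀ (n : ℕ) (F : Finset (Fin n → ZMod p)), F.card = N → Colourable k F c} := by
  rintro n F rfl
  exact colour_log hk t F ht h

lemma cmax_le (hk : 2 ≤ k) {N m t : ℕ} (ht : N < 2 ^ t) (h : 2 * N ≤ p ^ m) :
    cmax k p N ≤ t * cu k p m + 1 := Nat.sInf_le (cmax_nonempty hk ht h)

lemma cmax_spec (hk : 2 ≤ k) (N : ℕ) :
    ∀ (n : ℕ) (F : Finset (Fin n → ZMod p)), F.card = N → Colourable k F (cmax k p N) :=
  Nat.sInf_mem
    (s := {c : ℕ | ∀ (n : ℕ) (F : Finset (Fin n → ZMod p)), F.card = N → Colourable k F c})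
    ⟨_, cmax_nonempty hk (Nat.lt_pow_self one_lt_two)
      (Nat.lt_pow_self (n := 2 * N) hp.out.one_lt).le⟩

lemma le_cmax (hk : 2 ≤ k) {N m : ℕ} (h : N ≤ p ^ m) : N ≤ cmax k p N * ru k p m := by
  obtain ⟨F, rfl⟩ := exists_set (p := p) h
  exact (card_le_of_colourable (cmax_spec hk _ m F rfl)).trans
    (Nat.mul_le_mul_left _ (r_mono (subset_univ F) (by omega)))

lemma ru_mono_dim (hk : 2 ≤ k) {m m' : ℕ} (h : m ≤ m') : ru k p m ≤ ru k p m' := by
  obtain ⟨s, rfl⟩ := Nat.exists_eq_add_of_le h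
  exact (Nat.le_mul_of_pos_right _ (one_le_ru hk s)).trans (ru_mul_le m s (by omega))

/-- up to the factor `4 p` the spaces `F_p^m` are the worst sets -/
lemma rmin_const (hk : 2 ≤ k) {N : ℕ} (hN : 1 ≤ N) :
    rmin k p N ≤ ru k p (Nat.clog p N) ∧ ru k p (Nat.clog p N) ≤ 4 * p * rmin k p N := by
  have hp1 := hp.out.one_lt
  refine ⟨rmin_le hk (Nat.le_pow_clog hp1 _), ?_⟩
  set m := Nat.clog p (2 * N) with hm
  have h1 : ru k p (Nat.clog p N) ≤ ru k p m :=
    ru_mono_dim hk (Nat.clog_mono_right p (by omega))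
  have h2 := le_rmin (p := p) hk (N := N) (m := m) (Nat.le_pow_clog hp1 _)
  have h3 : p ^ m ≤ 2 * N * p := by
    have h4 : p ^ m.pred < 2 * N := Nat.pow_pred_clog_lt_self hp1 (by omega)
    have hpos : 0 < m := Nat.clog_pos hp1 (by omega)
    obtain ⟨s, hs⟩ := Nat.exists_eq_succ_of_ne_zero hpos.ne'
    rw [hs] at h4 ⊢
    rw [Nat.succ_eq_add_one, pow_succ]
    exact Nat.mul_le_mul_right _ h4.le
  have h5 : N * ru k p m ≤ N * (4 * p * rmin k p N) := by
    calc N * ru k p m ≤ 2 * p ^ m * rmin k p N := h2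
      _ ≤ 2 * (2 * N * p) * rmin k p N :=
          Nat.mul_le_mul_right _ (Nat.mul_le_mul_left _ h3)
      _ = _ := by ring
  exact h1.trans (Nat.le_of_mul_le_mul_left h5 hN)

/-! ### limits -/

lemma tendsto_log_cast : Tendsto (fun N : ℕ => Real.log (N : ℝ)) atTop atTop :=
  Real.tendsto_log_atTop.comp tendsto_natCast_atTop_atTop

lemma const_div_log (C : ℝ) : Tendsto (fun N : ℕ => C / Real.log N) atTop (𝓝 0) :=
  tendsto_const_nhds.div_atTop tendsto_log_cast

lemma clog_bounds {a N : ℕ} (ha : 1 ≤ a) (hN : 2 ≤ N) :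
    Real.log N ≤ (Nat.clog p (a * N) : ℝ) * Real.log p ∧
      (Nat.clog p (a * N) : ℝ) * Real.log p ≤ Real.log N + (Real.log a + Real.log p) := by
  have hp1 := hp.out.one_lt
  have ha' : (0 : ℝ) < a := by exact_mod_cast ha
  have hN' : (0 : ℝ) < N := by exact_mod_cast (by omega : 0 < N)
  have hp' : (0 : ℝ) < p := by exact_mod_cast hp.out.pos
  have haN : 2 ≤ a * N := hN.trans (Nat.le_mul_of_pos_left _ ha)
  constructor
  · have h1 : N ≤ p ^ Nat.clog p (a * N) :=
      (Nat.le_mul_of_pos_left _ ha).trans (Nat.le_pow_clog hp1 _)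
    have h2 : Real.log N ≤ Real.log ((p : ℝ) ^ Nat.clog p (a * N)) :=
      Real.log_le_log hN' (by exact_mod_cast h1)
    rwa [Real.log_pow] at h2
  · have h1 : p ^ (Nat.clog p (a * N)).pred < a * N := Nat.pow_pred_clog_lt_self hp1 (by omega)
    have hpos : 0 < Nat.clog p (a * N) := Nat.clog_pos hp1 haN
    have h2 : p ^ Nat.clog p (a * N) ≤ a * N * p := by
      obtain ⟨s, hs⟩ := Nat.exists_eq_succ_of_ne_zero hpos.ne'
      rw [hs] at h1 ⊢
      rw [Nat.succ_eq_add_one, pow_succ]
      exact Nat.mul_le_mul_right _ h1.le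
    have h3 : Real.log ((p : ℝ) ^ Nat.clog p (a * N)) ≤ Real.log ((a : ℝ) * N * p) :=
      Real.log_le_log (by positivity) (by exact_mod_cast h2)
    rw [Real.log_pow, Real.log_mul (by positivity) hp'.ne', Real.log_mul ha'.ne' hN'.ne'] at h3
    linarith

lemma log_p_pos : 0 < Real.log p := Real.log_pos (by exact_mod_cast hp.out.one_lt)

lemma clog_lim {a : ℕ} (ha : 1 ≤ a) :
    Tendsto (fun N : ℕ => (Nat.clog p (a * N) : ℝ) / Real.log N) atTop (𝓝 (Real.log p)⁻¹) := by
  have hlp := log_p_pos (p := p)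
  have h1 : Tendsto (fun N : ℕ => (Real.log p)⁻¹ +
      ((Real.log a + Real.log p) * (Real.log p)⁻¹) / Real.log N) atTop (𝓝 (Real.log p)⁻¹) := by
    have := (const_div_log ((Real.log a + Real.log p) * (Real.log p)⁻¹)).const_add (Real.log p)⁻¹
    rwa [add_zero] at this
  refine tendsto_of_tendsto_of_tendsto_of_le_of_le' tendsto_const_nhds h1 ?_ ?_
  · filter_upwards [eventually_ge_atTop 2] with N hN
    have hlN : 0 < Real.log N := Real.log_pos (by exact_mod_cast (by omega : 1 < N))
    rw [le_div_iff₀ hlN, inv_mul_le_iff₀ hlp, mul_comm]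
    exact (clog_bounds ha hN).1
  · filter_upwards [eventually_ge_atTop 2] with N hN
    have hlN : 0 < Real.log N := Real.log_pos (by exact_mod_cast (by omega : 1 < N))
    have h2 := (clog_bounds (p := p) ha hN).2
    rw [div_le_iff₀ hlN]
    have e : ((Real.log p)⁻¹ + (Real.log a + Real.log p) * (Real.log p)⁻¹ / Real.log N) *
        Real.log N = (Real.log N + (Real.log a + Real.log p)) * (Real.log p)⁻¹ := by
      field_simp
    rw [e, ← div_eq_mul_inv, le_div_iff₀ hlp]
    exact h2

lemma clog_tendsto {a : ℕ} (ha : 1 ≤ a) :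
    Tendsto (fun N : ℕ => Nat.clog p (a * N)) atTop atTop := by
  rw [tendsto_atTop]
  intro b
  filter_upwards [eventually_gt_atTop (p ^ b)] with N hN
  by_contra h
  push Not at h
  have h1 : a * N ≤ p ^ Nat.clog p (a * N) := Nat.le_pow_clog hp.out.one_lt _
  have h2 : p ^ Nat.clog p (a * N) ≤ p ^ b := Nat.pow_le_pow_right hp.out.pos h.le
  have h3 : N ≤ a * N := Nat.le_mul_of_pos_left _ ha
  omega

lemma comp_lim {u : ℕ → ℝ} {L : ℝ} (h : Tendsto (fun n : ℕ => Real.log (u n) / n) atTop (𝓝 L))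
    {a : ℕ} (ha : 1 ≤ a) :
    Tendsto (fun N : ℕ => Real.log (u (Nat.clog p (a * N))) / Real.log N) atTop
      (𝓝 (L * (Real.log p)⁻¹)) := by
  have h1 := (h.comp (clog_tendsto (p := p) ha)).mul (clog_lim (p := p) ha)
  refine h1.congr' ?_
  filter_upwards [(clog_tendsto (p := p) ha).eventually (eventually_gt_atTop 0)] with N hN
  have hN' : (0 : ℝ) < (Nat.clog p (a * N) : ℕ) := by exact_mod_cast hN
  rw [Function.comp_apply, div_mul_div_comm, mul_comm (Real.log _) _,
    mul_div_mul_left _ _ hN'.ne']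

lemma rmin_lim (hk : 2 ≤ k) {L : ℝ}
    (hL : Tendsto (fun n : ℕ => Real.log (ru k p n) / n) atTop (𝓝 L)) :
    Tendsto (fun N : ℕ => Real.log (rmin k p N) / Real.log N) atTop (𝓝 (L * (Real.log p)⁻¹)) := by
  have hp' : (0 : ℝ) < p := by exact_mod_cast hp.out.pos
  have h1 : Tendsto (fun N : ℕ => Real.log (ru k p (Nat.clog p (2 * N))) / Real.log N -
      (Real.log 2 + Real.log 2 + Real.log p) / Real.log N) atTop (𝓝 (L * (Real.log p)⁻¹)) := by
    have := (comp_lim (p := p) (u := fun n => (ru k p n : ℝ)) hL (a := 2) (by norm_num)).sub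
      (const_div_log (Real.log 2 + Real.log 2 + Real.log p))
    rwa [sub_zero] at this
  have h2 := comp_lim (p := p) (u := fun n => (ru k p n : ℝ)) hL (a := 1) le_rfl
  refine tendsto_of_tendsto_of_tendsto_of_le_of_le' h1 h2 ?_ ?_
  · filter_upwards [eventually_ge_atTop 2] with N hN
    have hlN : 0 < Real.log N := Real.log_pos (by exact_mod_cast (by omega : 1 < N))
    have hN' : (0 : ℝ) < N := by exact_mod_cast (by omega : 0 < N)
    set m := Nat.clog p (2 * N) with hm
    have hr : (0 : ℝ) < ru k p m := by exact_mod_cast one_le_ru hk m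
    have h3 := le_rmin (p := p) hk (N := N) (m := m) (Nat.le_pow_clog hp.out.one_lt _)
    have hrm : (0 : ℝ) < rmin k p N := by
      have : 0 < rmin k p N := by
        rcases Nat.eq_zero_or_pos (rmin k p N) with h | h
        · rw [h, mul_zero] at h3
          have h4 : 0 < N * ru k p m := Nat.mul_pos (by omega) (one_le_ru hk m)
          omega
        · exact h
      exact_mod_cast this
    have h4 : (N : ℝ) * ru k p m ≤ 2 * (p : ℝ) ^ m * rmin k p N := by exact_mod_cast h3
    have h5 := Real.log_le_log (by positivity) h4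
    rw [Real.log_mul hN'.ne' hr.ne', Real.log_mul (by positivity) hrm.ne',
      Real.log_mul (by norm_num) (by positivity), Real.log_pow] at h5
    have h6 := (clog_bounds (p := p) (a := 2) (by norm_num) hN).2
    rw [← hm] at h6
    push_cast at h6
    rw [← sub_div]
    refine div_le_div_of_nonneg_right ?_ hlN.le
    linarith
  · filter_upwards [eventually_ge_atTop 2] with N hN
    have hlN : 0 < Real.log N := Real.log_pos (by exact_mod_cast (by omega : 1 < N))
    refine div_le_div_of_nonneg_right ?_ hlN.le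
    have h3 := rmin_le (p := p) hk (N := N) (m := Nat.clog p (1 * N))
      (by rw [one_mul]; exact Nat.le_pow_clog hp.out.one_lt _)
    rcases Nat.eq_zero_or_pos (rmin k p N) with h | h
    · rw [h, Nat.cast_zero, Real.log_zero]
      apply Real.log_nonneg
      exact_mod_cast one_le_ru hk _
    · exact Real.log_le_log (by exact_mod_cast h) (by exact_mod_cast h3)

lemma log_log_lim : Tendsto (fun N : ℕ => Real.log (6 * Real.log N) / Real.log N) atTop (𝓝 0) := by
  have h0 : Tendsto (fun x : ℝ => Real.log x / x) atTop (𝓝 0) := by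
    have := Real.isLittleO_log_id_atTop.tendsto_div_nhds_zero
    simpa using this
  have h1 := (const_div_log (Real.log 6)).add (h0.comp tendsto_log_cast)
  rw [add_zero] at h1
  refine h1.congr' ?_
  filter_upwards [eventually_ge_atTop 2] with N hN
  have hlN : 0 < Real.log N := Real.log_pos (by exact_mod_cast (by omega : 1 < N))
  rw [Function.comp_apply, ← add_div, Real.log_mul (by norm_num) hlN.ne']

lemma cmax_lim (hk : 2 ≤ k) {L : ℝ}
    (hL : Tendsto (fun n : ℕ => Real.log (ru k p n) / n) atTop (𝓝 L)) :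
    Tendsto (fun N : ℕ => Real.log (cmax k p N) / Real.log N) atTop
      (𝓝 (1 - L * (Real.log p)⁻¹)) := by
  have hp' : (0 : ℝ) < p := by exact_mod_cast hp.out.pos
  have hlp := log_p_pos (p := p)
  have h1 : Tendsto (fun N : ℕ => 1 - Real.log (ru k p (Nat.clog p (1 * N))) / Real.log N) atTop
      (𝓝 (1 - L * (Real.log p)⁻¹)) :=
    (comp_lim (p := p) (u := fun n => (ru k p n : ℝ)) hL (a := 1) le_rfl).const_sub 1
  have h2 : Tendsto (fun N : ℕ => Real.log (cu k p (Nat.clog p (2 * N))) / Real.log N +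
      (Real.log 2 / Real.log N + Real.log (6 * Real.log N) / Real.log N)) atTop
      (𝓝 (1 - L * (Real.log p)⁻¹)) := by
    have := (comp_lim (p := p) (u := fun n => (cu k p n : ℝ)) (cu_lim hk hL) (a := 2)
      (by norm_num)).add ((const_div_log (Real.log 2)).add log_log_lim)
    have e : (Real.log p - L) * (Real.log p)⁻¹ + (0 + 0) = 1 - L * (Real.log p)⁻¹ := by
      field_simp
      ring
    rwa [e] at this
  have hpos : ∀ N : ℕ, 2 ≤ N → (0 : ℝ) < cmax k p N := by
    intro N hN
    have h3 := le_cmax (p := p) hk (N := N) (m := Nat.clog p N)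
      (Nat.le_pow_clog hp.out.one_lt _)
    have : 0 < cmax k p N := by
      rcases Nat.eq_zero_or_pos (cmax k p N) with h | h
      · rw [h, zero_mul] at h3; omega
      · exact h
    exact_mod_cast this
  refine tendsto_of_tendsto_of_tendsto_of_le_of_le' h1 h2 ?_ ?_
  · filter_upwards [eventually_ge_atTop 2] with N hN
    have hlN : 0 < Real.log N := Real.log_pos (by exact_mod_cast (by omega : 1 < N))
    have hN' : (0 : ℝ) < N := by exact_mod_cast (by omega : 0 < N)
    set m := Nat.clog p (1 * N) with hm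
    have hr : (0 : ℝ) < ru k p m := by exact_mod_cast one_le_ru hk m
    have h3 := le_cmax (p := p) hk (N := N) (m := m)
      (by rw [hm, one_mul]; exact Nat.le_pow_clog hp.out.one_lt _)
    have h4 : (N : ℝ) ≤ cmax k p N * ru k p m := by exact_mod_cast h3
    have h5 := Real.log_le_log hN' h4
    rw [Real.log_mul (hpos N hN).ne' hr.ne'] at h5
    rw [le_div_iff₀ hlN, sub_mul, one_mul, div_mul_cancel₀ _ hlN.ne']
    linarith
  · filter_upwards [eventually_ge_atTop 3] with N hN
    have hN1 : (1 : ℝ) ≤ Real.log N := by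
      rw [← Real.log_exp 1]
      apply Real.log_le_log (Real.exp_pos 1)
      have : Real.exp 1 < 3 := lt_trans Real.exp_one_lt_d9 (by norm_num)
      have h3 : (3 : ℝ) ≤ N := by exact_mod_cast hN
      linarith
    have hlN : 0 < Real.log N := by linarith
    set m := Nat.clog p (2 * N) with hm
    have hcm := cmax_le (p := p) hk (N := N) (m := m) (t := Nat.log 2 N + 1)
      (Nat.lt_pow_succ_log_self one_lt_two N) (Nat.le_pow_clog hp.out.one_lt _)
    have hcu : 1 ≤ cu k p m := by
      have h5 := le_chi_mul hk (univ : Finset (Fin m → ZMod p))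
      rw [Finset.card_univ, card_space] at h5
      have h6 : 0 < p ^ m := Nat.pow_pos hp.out.pos
      rcases Nat.eq_zero_or_pos (chi k (univ : Finset (Fin m → ZMod p))) with h | h
      · rw [h] at h5; omega
      · exact h
    have hcu' : (1 : ℝ) ≤ cu k p m := by exact_mod_cast hcu
    have hlog2 : (Nat.log 2 N : ℝ) ≤ 2 * Real.log N := by
      have h3 : 2 ^ Nat.log 2 N ≤ N := Nat.pow_log_le_self 2 (by omega)
      have h4 : Real.log ((2 : ℝ) ^ Nat.log 2 N) ≤ Real.log N :=
        Real.log_le_log (by positivity) (by exact_mod_cast h3)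
      rw [Real.log_pow] at h4
      have h5 : (1 : ℝ) / 2 ≤ Real.log 2 := by
        have := Real.log_two_gt_d9
        linarith
      have h6 : (0 : ℝ) ≤ (Nat.log 2 N : ℝ) := Nat.cast_nonneg _
      nlinarith
    have h3 : (cmax k p N : ℝ) ≤ cu k p m * (2 * (6 * Real.log N)) := by
      have h4 : (cmax k p N : ℝ) ≤ ((Nat.log 2 N : ℝ) + 1) * cu k p m + 1 := by
        exact_mod_cast hcm
      have h5 : ((Nat.log 2 N : ℝ) + 1) * cu k p m + 1 ≤ cu k p m * ((Nat.log 2 N : ℝ) + 2) := by
        linarith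
      have h6 : (Nat.log 2 N : ℝ) + 2 ≤ 2 * (6 * Real.log N) := by linarith
      have h7 : (cu k p m : ℝ) * ((Nat.log 2 N : ℝ) + 2) ≤ cu k p m * (2 * (6 * Real.log N)) :=
        mul_le_mul_of_nonneg_left h6 (by linarith)
      linarith
    have h4 := Real.log_le_log (hpos N (by omega)) h3
    rw [Real.log_mul (by linarith) (by positivity), Real.log_mul (by norm_num) (by positivity)] at h4
    rw [← add_div, ← add_div]
    exact div_le_div_of_nonneg_right h4 hlN.le

end Pool.Agent.KS6_70.RC
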